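import Mathlib

set_option autoImplicit false

namespace Pool.Agent.Helper313.Cube

/-- The set `Λ × K` with the product `(a, k) (b, l) = (a + Θ k b, k l)`. -/
@[ext] structure Aff {K L : Type} [Group K] [CommRing L] (T : K →* L) where
  a : L
  k : K

section affgroup
variable {K L : Type} [Group K] [CommRing L] {T : K →* L}

instance : Mul (Aff T) := ⟨fun u v => ⟨u.a + T u.k * v.a, u.k * v.k⟩⟩
instance : One (Aff T) := ⟨⟨0, 1⟩⟩
instance : Inv (Aff T) := ⟨fun u => ⟨-(T u.k⁻¹ * u.a), u.k⁻¹⟩⟩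

@[simp] lemma mul_a (u v : Aff T) : (u * v).a = u.a + T u.k * v.a := rfl
@[simp] lemma mul_k (u v : Aff T) : (u * v).k = u.k * v.k := rfl
@[simp] lemma one_a : (1 : Aff T).a = 0 := rfl
@[simp] lemma one_k : (1 : Aff T).k = 1 := rfl
@[simp] lemma inv_a (u : Aff T) : (u⁻¹).a = -(T u.k⁻¹ * u.a) := rfl
@[simp] lemma inv_k (u : Aff T) : (u⁻¹).k = u.k⁻¹ := rfl

instance : Group (Aff T) := Group.ofLeftAxioms
  (by intro x y z; ext <;> simp [mul_add, add_assoc, mul_assoc])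
  (by intro x; ext <;> simp)
  (by intro x; ext <;> simp)

def affEquiv : Aff T ≃ L × K where
  toFun u := (u.a, u.k)
  invFun p := ⟨p.1, p.2⟩
  left_inv _ := rfl
  right_inv _ := rfl

instance [Finite K] [Finite L] : Finite (Aff T) := Finite.of_equiv _ (affEquiv (T := T)).symm

lemma T_inv_mul (T : K →* L) (k : K) : T k⁻¹ * T k = 1 := by rw [← map_mul]; simp
lemma T_mul_inv (T : K →* L) (k : K) : T k * T k⁻¹ = 1 := by rw [← map_mul]; simp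

lemma mk_mul_mk (a b : L) (k l : K) : (⟨a, k⟩ : Aff T) * ⟨b, l⟩ = ⟨a + T k * b, k * l⟩ := rfl

lemma conj_eq (w : Aff T) (c : L) : w * ⟨c, 1⟩ * w⁻¹ = ⟨T w.k * c, 1⟩ := by
  have h := T_mul_inv T w.k
  ext
  · simp only [mul_a, mul_k, inv_a, mul_one]
    linear_combination (-w.a) * h
  · simp

lemma neg_eq (c : L) : (⟨-c, 1⟩ : Aff T) = (⟨c, 1⟩ : Aff T)⁻¹ := by
  ext <;> simp

lemma add_eq (c d : L) : (⟨c + d, 1⟩ : Aff T) = (⟨c, 1⟩ : Aff T) * ⟨d, 1⟩ := by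
  ext <;> simp

end affgroup

lemma comm_eq {K L : Type} [CommGroup K] [CommRing L] {T : K →* L} (u v : Aff T) :
    u * v * (v * u)⁻¹ = ⟨(T u.k - 1) * v.a - (T v.k - 1) * u.a, 1⟩ := by
  have h : u * v = ⟨(T u.k - 1) * v.a - (T v.k - 1) * u.a, 1⟩ * (v * u) := by
    ext
    · simp only [mul_a, map_one]; ring
    · simp [mul_comm]
  rw [h, mul_inv_cancel_right]

/-- The data of the construction. -/
structure Setup (N R K : Type) [CommRing N] [CommRing R] [CommGroup K] where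
  p : R
  i : K →* N × R
  g : K
  sq : p ^ 2 = 7
  nine : p ^ 9 = 0
  eight : ∀ n : ℤ, p ^ 8 * (n : R) = 0 → (7 : ℤ) ∣ n
  res : ∀ x : R, ∃ (n : ℤ) (y : R), x = n + p * y
  N0 : ∀ n : ℤ, (n : N) = 0 → (7 : ℤ) ^ 10 ∣ n
  N1 : (7 : N) ^ 10 = 0
  Ns : ∀ x : N, ∃ n : ℕ, x = n
  ig : i g = (8, 1 + p)
  gen : ∀ k : K, ∃ n : ℕ, k = g ^ n
  inj : Function.Injective i

section ringfacts
variable {R : Type} [CommRing R]

lemma expand (p : R) (n : ℕ) : ∃ (C : ℤ) (e : R), 2 * C = n * (n - 1) ∧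
    (1 + p) ^ n = 1 + n * p + C * p ^ 2 + p ^ 3 * e := by
  induction n with
  | zero => exact ⟨0, 0, by simp, by simp⟩
  | succ n ih =>
    obtain ⟨C, e, h1, h2⟩ := ih
    refine ⟨C + n, C + e + p * e, ?_, ?_⟩
    · push_cast; linarith
    · rw [pow_succ, h2]; push_cast; ring

lemma key1 (p : R) (sq : p ^ 2 = 7) (nine : p ^ 9 = 0) (n : ℕ) (hn : ¬ 7 ∣ n)
    (t t' e c z1 z2 z3 : R) (ht : t = (1 + p) ^ n + p ^ 7 * e) (htt : t * t' = 1) :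
    ((t + t' - 2) - 49 * z1) * ((t + t' - 2) - 49 * z2) * ((t + t' - 2) - 49 * z3) * (p * c)
      = (p ^ 6 - 3 * p ^ 7) * (p * c) := by
  obtain ⟨C, e1, hC, h1⟩ := expand p n
  -- t = 1 + p v
  set v : R := n + p * (C + p * (e1 + p ^ 4 * e)) with hv
  have ht1 : t = 1 + p * v := by rw [ht, h1, hv]; ring
  have ht' : t' = 1 - p * v * t' := by
    have : (1 + p * v) * t' = 1 := by rw [← ht1]; exact htt
    linear_combination this
  have hY : t + t' - 2 = p ^ 2 * (v ^ 2 * t') := by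
    have : t * t' = 1 := htt
    have h2 : t + t' - 2 = (t - 1) ^ 2 * t' := by linear_combination (t - 2) * this * (-1)
    rw [h2, ht1]; ring
  have h49 : (49 : R) = p ^ 4 := by
    have : (49 : R) = 7 * 7 := by norm_num
    rw [this, ← sq]; ring
  -- sixth power expansion
  obtain ⟨E1, hE1⟩ := Polynomial.powAddExpansion (n : R) (p * (C + p * (e1 + p ^ 4 * e))) 6
  have hv6 : v ^ 6 = (n : R) ^ 6 + p * (6 * n ^ 5 * C) + p ^ 2 * (6 * n ^ 5 * (e1 + p ^ 4 * e)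
      + E1 * (C + p * (e1 + p ^ 4 * e)) ^ 2) := by
    rw [hv, hE1]; push_cast; ring
  -- t' cubed
  have ht2 : t' = 1 - p * n + p ^ 2 * (v ^ 2 * t' - (C + p * (e1 + p ^ 4 * e))) := by
    have : t' = 1 - p * v + p ^ 2 * (v ^ 2 * t') := by
      linear_combination (1 - p * v) * ht'
    rw [hv] at this ⊢
    linear_combination this
  set w : R := v ^ 2 * t' - (C + p * (e1 + p ^ 4 * e)) with hw
  have ht3 : t' ^ 3 = 1 - p * (3 * n) + p ^ 2 * (3 * n ^ 2 - p * n ^ 3 + 3 * (1 - p * n) ^ 2 * w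
      + 3 * (1 - p * n) * p ^ 2 * w ^ 2 + p ^ 4 * w ^ 3) := by
    rw [ht2]; ring
  have hCR : (2 : R) * C = n * (n - 1) := by
    have := congrArg (Int.cast : ℤ → R) hC
    push_cast at this; exact this
  -- n^6 = 1 mod 7
  have hn7 : ∃ m : ℤ, (n : ℤ) ^ 6 = 1 + 7 * m := by
    have h7 : ((n : ℤ) ^ 6) % 7 = 1 := by
      have hp : Nat.Prime 7 := by norm_num
      have := Int.ModEq.pow_card_sub_one_eq_one hp (n := (n : ℤ)) (by
        rw [Int.isCoprime_iff_gcd_eq_one]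
        have : Nat.Coprime n 7 := ((Nat.Prime.coprime_iff_not_dvd hp).2 hn).symm
        simpa [Int.gcd] using this)
      simpa [Int.ModEq] using this
    exact ⟨(n : ℤ) ^ 6 / 7, by
      have := Int.emod_add_mul_ediv ((n : ℤ) ^ 6) 7
      omega⟩
  obtain ⟨m, hm⟩ := hn7
  have hmR : (n : R) ^ 6 = 1 + p ^ 2 * m := by
    have := congrArg (Int.cast : ℤ → R) hm
    push_cast at this
    rw [sq]; exact this
  obtain ⟨a2, hv6'⟩ : ∃ a2 : R, v ^ 6 = (n : R) ^ 6 + p * (6 * n ^ 5 * C) + p ^ 2 * a2 := ⟨_, hv6⟩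
  obtain ⟨b2, ht3'⟩ : ∃ b2 : R, t' ^ 3 = 1 - p * (3 * n) + p ^ 2 * b2 := ⟨_, ht3⟩
  rw [hY, h49]
  have s1 : (p ^ 2 * (v ^ 2 * t') - p ^ 4 * z1) * (p ^ 2 * (v ^ 2 * t') - p ^ 4 * z2) *
      (p ^ 2 * (v ^ 2 * t') - p ^ 4 * z3) * (p * c)
      = p ^ 7 * c * (v ^ 6 * t' ^ 3) + p ^ 9 * (c * (-((v ^ 2 * t') ^ 2 * (z1 + z2 + z3))
        + p ^ 2 * (v ^ 2 * t') * (z1 * z2 + z1 * z3 + z2 * z3) - p ^ 4 * (z1 * z2 * z3))) := by
    ring
  have s2 : p ^ 7 * c * (((n : R) ^ 6 + p * (6 * n ^ 5 * C) + p ^ 2 * a2) *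
      (1 - p * (3 * n) + p ^ 2 * b2))
      = p ^ 7 * c * n ^ 6 + p ^ 8 * c * (3 * n ^ 5 * (2 * C) - 3 * n * n ^ 6) + p ^ 9 * (c *
        (n ^ 6 * b2 + a2 * (1 - p * (3 * n) + p ^ 2 * b2) - (6 * n ^ 5 * C) * (3 * n)
          + p * (6 * n ^ 5 * C) * b2)) := by
    ring
  rw [s1, hv6', ht3', s2, hCR, nine]
  have s3 : p ^ 7 * c * (n : R) ^ 6 + p ^ 8 * c * (3 * n ^ 5 * (n * (n - 1)) - 3 * n * n ^ 6)
      = (p ^ 7 * c - 3 * p ^ 8 * c) * (n : R) ^ 6 := by ring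
  rw [s3, hmR]
  linear_combination (c * m - 3 * p * c * m) * nine

lemma expand7 (p : R) (sq : p ^ 2 = 7) (n : ℕ) (hn : 7 ∣ n) :
    ∃ e : R, (1 + p) ^ n = 1 + p ^ 3 * e := by
  obtain ⟨m, rfl⟩ := hn
  have h7 : (1 + p) ^ 7 = 1 + p ^ 3 * (36 + 38 * p + 21 * p ^ 2 + 7 * p ^ 3 + p ^ 4) := by
    linear_combination (-(p + 3 * p ^ 2)) * sq
  rw [pow_mul, h7]
  induction m with
  | zero => exact ⟨0, by simp⟩
  | succ m ih =>
    obtain ⟨e, he⟩ := ih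
    refine ⟨e + (36 + 38 * p + 21 * p ^ 2 + 7 * p ^ 3 + p ^ 4) + p ^ 3 * e *
      (36 + 38 * p + 21 * p ^ 2 + 7 * p ^ 3 + p ^ 4), ?_⟩
    rw [pow_succ, he]; ring

lemma key2 (p : R) (sq : p ^ 2 = 7) (nine : p ^ 9 = 0) (n : ℕ) (hn : 7 ∣ n)
    (t t' e z1 z2 z3 : R) (ht : t = (1 + p) ^ n + p ^ 7 * e) (htt : t * t' = 1) :
    ((t + t' - 2) - 49 * z1) * ((t + t' - 2) - 49 * z2) * ((t + t' - 2) - 49 * z3) = 0 := by
  obtain ⟨e1, h1⟩ := expand7 p sq n hn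
  have ht1 : t = 1 + p ^ 3 * (e1 + p ^ 4 * e) := by rw [ht, h1]; ring
  have hY : t + t' - 2 = p ^ 6 * ((e1 + p ^ 4 * e) ^ 2 * t') := by
    have h2 : t + t' - 2 = (t - 1) ^ 2 * t' := by linear_combination (t - 2) * htt * (-1)
    rw [h2, ht1]; ring
  have h49 : (49 : R) = p ^ 4 := by
    have : (49 : R) = 7 * 7 := by norm_num
    rw [this, ← sq]; ring
  rw [hY, h49]
  have : ∀ U : R, (p ^ 6 * U - p ^ 4 * z1) * (p ^ 6 * U - p ^ 4 * z2) * (p ^ 6 * U - p ^ 4 * z3)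
      = p ^ 9 * (p ^ 3 * (p ^ 2 * U - z1) * (p ^ 2 * U - z2) * (p ^ 2 * U - z3)) := by
    intro U; ring
  rw [this, nine, zero_mul]

end ringfacts

lemma pick_aux : ∀ s t : ZMod 7, ∃ x : ZMod 7, ∀ r : ZMod 7, r ≠ x → (s ≠ 0 ∨ t ≠ 0) →
    s + r * t ≠ 0 := by decide

lemma pick_aux2 : ∀ x y z : ZMod 7, ∃ r : ZMod 7, r ≠ x ∧ r ≠ y ∧ r ≠ z := by decide

lemma pick (s1 t1 s2 t2 s3 t3 : ℕ) : ∃ r : ℕ, (¬ (7 ∣ s1 ∧ 7 ∣ t1) → ¬ 7 ∣ s1 + r * t1) ∧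
    (¬ (7 ∣ s2 ∧ 7 ∣ t2) → ¬ 7 ∣ s2 + r * t2) ∧ (¬ (7 ∣ s3 ∧ 7 ∣ t3) → ¬ 7 ∣ s3 + r * t3) := by
  obtain ⟨x1, h1⟩ := pick_aux s1 t1
  obtain ⟨x2, h2⟩ := pick_aux s2 t2
  obtain ⟨x3, h3⟩ := pick_aux s3 t3
  obtain ⟨r, r1, r2, r3⟩ := pick_aux2 x1 x2 x3
  have conv : ∀ s t : ℕ, ∀ x : ZMod 7, (∀ r : ZMod 7, r ≠ x → ((s : ZMod 7) ≠ 0 ∨ (t : ZMod 7) ≠ 0) →
      (s : ZMod 7) + r * t ≠ 0) → r ≠ x → ¬ (7 ∣ s ∧ 7 ∣ t) → ¬ 7 ∣ s + r.val * t := by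
    intro s t x h hr hst hdiv
    have hs : ((s : ZMod 7) ≠ 0 ∨ (t : ZMod 7) ≠ 0) := by
      by_contra hcon
      push Not at hcon
      exact hst ⟨(ZMod.natCast_eq_zero_iff s 7).1 hcon.1, (ZMod.natCast_eq_zero_iff t 7).1 hcon.2⟩
    refine h r hr hs ?_
    have := (ZMod.natCast_eq_zero_iff (s + r.val * t) 7).2 hdiv
    push_cast at this
    simpa using this
  exact ⟨r.val, conv s1 t1 x1 h1 r1, conv s2 t2 x2 h2 r2, conv s3 t3 x3 h3 r3⟩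

section comp
variable {N R K : Type} [CommRing N] [CommRing R] [CommGroup K] (S : Setup N R K)

/-- homs that agree with `S.i` on the first component and mod `p ^ 7` on the second -/
structure Close (T : K →* N × R) : Prop where
  h1 : ∀ k, (T k).1 = (S.i k).1
  h2 : ∀ k, ∃ e, (T k).2 = (S.i k).2 + S.p ^ 7 * e

variable {S}

lemma i_pow (n : ℕ) : S.i (S.g ^ n) = ((8 : N) ^ n, (1 + S.p) ^ n) := by
  rw [map_pow, S.ig]; rfl

/-- the correction element -/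
def E (S : Setup N R K) {T : K →* N × R} (u v : Aff T) : Aff T :=
  ⟨(0, (S.p ^ 6 - 3 * S.p ^ 7) * (3 + ((S.i u.k).2 - 1) - ((S.i v.k).2 - 1)) *
    (((S.i u.k).2 - 1) * v.a.2 - ((S.i v.k).2 - 1) * u.a.2)), 1⟩

/-- the operator `T m + T m⁻¹ - 2` -/
def Y (T : K →* N × R) (m : K) : N × R := T m + T m⁻¹ - 2

lemma exists_z {T : K →* N × R} (hT : Close S T) (m : K) :
    ∃ z : ℤ, ((49 * z : ℤ) : N) = (Y T m).1 := by
  obtain ⟨n, rfl⟩ := S.gen m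
  obtain ⟨w, hw⟩ : ∃ w : ℤ, (8 : ℤ) ^ n = 1 + 7 * w := by
    have : (7 : ℤ) ∣ 8 ^ n - 1 := by
      simpa using sub_dvd_pow_sub_pow (8 : ℤ) 1 n
    obtain ⟨w, hw⟩ := this
    exact ⟨w, by linarith⟩
  obtain ⟨q, hq⟩ := S.Ns (T (S.g ^ n)⁻¹).1
  refine ⟨w ^ 2 * q, ?_⟩
  have h1 : (T (S.g ^ n)).1 = (8 : N) ^ n := by rw [hT.h1, i_pow]
  have h2 : (T (S.g ^ n)).1 * (T (S.g ^ n)⁻¹).1 = 1 := by
    have := congrArg Prod.fst (T_mul_inv T (S.g ^ n))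
    simpa using this
  have hwN : (8 : N) ^ n = 1 + 7 * w := by
    have := congrArg (Int.cast : ℤ → N) hw
    push_cast at this; exact this
  have h3 : (Y T (S.g ^ n)).1 = (T (S.g ^ n)).1 + (T (S.g ^ n)⁻¹).1 - 2 := rfl
  rw [h3, hq]
  rw [h1, hwN, hq] at h2
  rw [h1, hwN]
  push_cast
  linear_combination (7 * (w : N) - 1) * h2

lemma comp {T : K →* N × R} (hT : Close S T) (u v : Aff T) (s t r : ℕ) (hu : u.k = S.g ^ s)
    (hv : v.k = S.g ^ t) (hr : ¬ (7 ∣ s ∧ 7 ∣ t) → ¬ 7 ∣ s + r * t) (z1 z2 z3 : ℤ)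
    (hz : ((49 * z1 : ℤ) : N) = (Y T (u.k * v.k ^ r)).1 ∨
      ((49 * z2 : ℤ) : N) = (Y T (u.k * v.k ^ r)).1 ∨
      ((49 * z3 : ℤ) : N) = (Y T (u.k * v.k ^ r)).1) :
    (Y T (u.k * v.k ^ r) - ((49 * z1 : ℤ) : N × R)) * (Y T (u.k * v.k ^ r) - ((49 * z2 : ℤ) : N × R))
      * (Y T (u.k * v.k ^ r) - ((49 * z3 : ℤ) : N × R)) * (3 + T u.k - T v.k) *
      ((T u.k - 1) * v.a - (T v.k - 1) * u.a) = (E S u v).a := by
  ext
  · -- first component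
    have hz0 : ∀ z : ℤ, ((49 * z : ℤ) : N) = (Y T (u.k * v.k ^ r)).1 →
        (Y T (u.k * v.k ^ r) - ((49 * z : ℤ) : N × R)).1 = 0 := by
      intro z hz
      rw [Prod.fst_sub, ← hz]; simp
    simp only [Prod.fst_mul]
    show _ = (0 : N)
    rcases hz with h | h | h
    · rw [hz0 z1 h]; ring
    · rw [hz0 z2 h]; ring
    · rw [hz0 z3 h]; ring
  · -- second component
    obtain ⟨eu, heu⟩ := hT.h2 u.k
    obtain ⟨ev, hev⟩ := hT.h2 v.k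
    obtain ⟨em, hem⟩ := hT.h2 (u.k * v.k ^ r)
    have hm : u.k * v.k ^ r = S.g ^ (s + r * t) := by
      rw [hu, hv, ← pow_mul, mul_comm t r, pow_add]
    set M := u.k * v.k ^ r with hM
    have hm2 : (T M).2 = (1 + S.p) ^ (s + r * t) + S.p ^ 7 * em := by
      rw [hem, hm, i_pow]
    have hinv : (T M).2 * (T M⁻¹).2 = 1 := by
      have := congrArg Prod.snd (T_mul_inv T M)
      simpa using this
    have hYM : ∀ z : ℤ, (Y T M - ((49 * z : ℤ) : N × R)).2 =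
        ((T M).2 + (T M⁻¹).2 - 2) - 49 * (z : R) := by
      intro z
      simp [Y]
    have hui : (S.i u.k).2 = (1 + S.p) ^ s := by rw [hu, i_pow]
    have hvi : (S.i v.k).2 = (1 + S.p) ^ t := by rw [hv, i_pow]
    have hc0 : ((T u.k - 1) * v.a - (T v.k - 1) * u.a).2 =
        ((T u.k).2 - 1) * v.a.2 - ((T v.k).2 - 1) * u.a.2 := by simp
    simp only [Prod.snd_mul]
    rw [hYM, hYM, hYM, hc0]
    have h3 : ((3 : N × R) + T u.k - T v.k).2 = 3 + (T u.k).2 - (T v.k).2 := by simp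
    rw [h3]
    show _ = (S.p ^ 6 - 3 * S.p ^ 7) * (3 + ((S.i u.k).2 - 1) - ((S.i v.k).2 - 1)) *
      (((S.i u.k).2 - 1) * v.a.2 - ((S.i v.k).2 - 1) * u.a.2)
    have nine := S.nine
    by_cases hst : 7 ∣ s ∧ 7 ∣ t
    · have h7 : 7 ∣ s + r * t := dvd_add hst.1 (dvd_mul_of_dvd_right hst.2 _)
      rw [key2 S.p S.sq S.nine _ h7 _ _ em z1 z2 z3 hm2 hinv]
      obtain ⟨e1, he1⟩ := expand7 S.p S.sq s hst.1
      obtain ⟨e2, he2⟩ := expand7 S.p S.sq t hst.2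
      rw [hui, hvi, he1, he2]
      linear_combination (-(1 - 3 * S.p) * (3 + S.p ^ 3 * e1 - S.p ^ 3 * e2) *
        (e1 * v.a.2 - e2 * u.a.2)) * nine
    · have hnd := hr hst
      obtain ⟨C1, e1, -, he1⟩ := expand S.p s
      obtain ⟨C2, e2, -, he2⟩ := expand S.p t
      have hcp : ∃ c, ((T u.k).2 - 1) * v.a.2 - ((T v.k).2 - 1) * u.a.2 = S.p * c := by
        refine ⟨(s + C1 * S.p + S.p ^ 2 * e1 + S.p ^ 6 * eu) * v.a.2 -
          (t + C2 * S.p + S.p ^ 2 * e2 + S.p ^ 6 * ev) * u.a.2, ?_⟩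
        rw [heu, hev, hui, hvi, he1, he2]; ring
      obtain ⟨c, hc⟩ := hcp
      have hk := key1 S.p S.sq S.nine _ hnd (T M).2 (T M⁻¹).2 em c z1 z2 z3 hm2 hinv
      rw [hc]
      have s1 : ∀ a b d : R, a * b * d * (3 + (T u.k).2 - (T v.k).2) * (S.p * c)
          = (a * b * d * (S.p * c)) * (3 + (T u.k).2 - (T v.k).2) := by intros; ring
      obtain ⟨A, hA⟩ : ∃ A : R, (1 + S.p) ^ s = 1 + A := ⟨(1 + S.p) ^ s - 1, by ring⟩
      obtain ⟨B, hB⟩ : ∃ B : R, (1 + S.p) ^ t = 1 + B := ⟨(1 + S.p) ^ t - 1, by ring⟩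
      rw [s1, hk, ← hc, heu, hev, hui, hvi, hA, hB]
      linear_combination (S.p ^ 4 * (1 - 3 * S.p) * ((eu * v.a.2 - ev * u.a.2) *
        (3 + A - B + S.p ^ 7 * (eu - ev)) + (A * v.a.2 - B * u.a.2) * (eu - ev))) * nine

/-- the main local lemma -/
lemma local_mem {T : K →* N × R} (hT : Close S T) (U : Subgroup (Aff T × Aff T × Aff T))
    (u v : Aff T × Aff T × Aff T) (hu : u ∈ U) (hv : v ∈ U) :
    (E S u.1 v.1, E S u.2.1 v.2.1, E S u.2.2 v.2.2) ∈ U := by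
  obtain ⟨u1, u2, u3⟩ := u
  obtain ⟨v1, v2, v3⟩ := v
  -- the module part
  let C : AddSubgroup ((N × R) × (N × R) × (N × R)) :=
    { carrier := {c | ((⟨c.1, 1⟩ : Aff T), (⟨c.2.1, 1⟩ : Aff T), (⟨c.2.2, 1⟩ : Aff T)) ∈ U}
      zero_mem' := U.one_mem
      add_mem' := by
        intro a b ha hb
        have := U.mul_mem ha hb
        simpa [mk_mul_mk] using this
      neg_mem' := by
        intro a ha
        have := U.inv_mem ha
        have e : (((⟨(-a).1, 1⟩ : Aff T), (⟨(-a).2.1, 1⟩ : Aff T), (⟨(-a).2.2, 1⟩ : Aff T)))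
          = ((⟨a.1, 1⟩ : Aff T), (⟨a.2.1, 1⟩ : Aff T), (⟨a.2.2, 1⟩ : Aff T))⁻¹ := by
          refine Prod.ext (neg_eq _) (Prod.ext (neg_eq _) (neg_eq _))
        show (((⟨(-a).1, 1⟩ : Aff T), (⟨(-a).2.1, 1⟩ : Aff T), (⟨(-a).2.2, 1⟩ : Aff T))) ∈ U
        rw [e]; exact this }
  have hC : ∀ c, c ∈ C ↔ ((⟨c.1, 1⟩ : Aff T), (⟨c.2.1, 1⟩ : Aff T), (⟨c.2.2, 1⟩ : Aff T)) ∈ U :=
    fun c => Iff.rfl
  let O : Subring ((N × R) × (N × R) × (N × R)) :=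
    { carrier := {l | ∀ c ∈ C, l * c ∈ C}
      mul_mem' := by
        intro a b ha hb c hc
        rw [mul_assoc]; exact ha _ (hb _ hc)
      one_mem' := by intro c hc; simpa using hc
      add_mem' := by
        intro a b ha hb c hc
        rw [add_mul]; exact C.add_mem (ha _ hc) (hb _ hc)
      zero_mem' := by intro c hc; rw [zero_mul]; exact C.zero_mem
      neg_mem' := by
        intro a ha c hc
        rw [neg_mul]; exact C.neg_mem (ha _ hc) }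
  have hO : ∀ w : Aff T × Aff T × Aff T, w ∈ U → ((T w.1.k, T w.2.1.k, T w.2.2.k) :
      (N × R) × (N × R) × (N × R)) ∈ O := by
    intro w hw c hc
    have := U.mul_mem (U.mul_mem hw hc) (U.inv_mem hw)
    rw [hC]
    have e : (((⟨T w.1.k * c.1, 1⟩ : Aff T), (⟨T w.2.1.k * c.2.1, 1⟩ : Aff T),
        (⟨T w.2.2.k * c.2.2, 1⟩ : Aff T))) = w * ((⟨c.1, 1⟩ : Aff T), (⟨c.2.1, 1⟩ : Aff T),
        (⟨c.2.2, 1⟩ : Aff T)) * w⁻¹ :=
      Prod.ext (conj_eq _ _).symm (Prod.ext (conj_eq _ _).symm (conj_eq _ _).symm)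
    rw [← e] at this
    exact this
  have hint : ∀ z : ℤ, ((z : (N × R)), (z : (N × R)), (z : (N × R))) ∈ O := fun z => by
    exact intCast_mem O z
  have h3O : ((3 : (N × R)), (3 : (N × R)), (3 : (N × R))) ∈ O := by
    have := hint 3
    simpa using this
  obtain ⟨s1, hs1⟩ := S.gen u1.k
  obtain ⟨s2, hs2⟩ := S.gen u2.k
  obtain ⟨s3, hs3⟩ := S.gen u3.k
  obtain ⟨t1, ht1⟩ := S.gen v1.k
  obtain ⟨t2, ht2⟩ := S.gen v2.k
  obtain ⟨t3, ht3⟩ := S.gen v3.k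
  obtain ⟨r, hr1, hr2, hr3⟩ := pick s1 t1 s2 t2 s3 t3
  obtain ⟨z1, hz1⟩ := exists_z hT (u1.k * v1.k ^ r)
  obtain ⟨z2, hz2⟩ := exists_z hT (u2.k * v2.k ^ r)
  obtain ⟨z3, hz3⟩ := exists_z hT (u3.k * v3.k ^ r)
  have c1 := comp hT u1 v1 s1 t1 r hs1 ht1 hr1 z1 z2 z3 (Or.inl hz1)
  have c2 := comp hT u2 v2 s2 t2 r hs2 ht2 hr2 z1 z2 z3 (Or.inr (Or.inl hz2))
  have c3 := comp hT u3 v3 s3 t3 r hs3 ht3 hr3 z1 z2 z3 (Or.inr (Or.inr hz3))
  -- membership of the pieces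
  have hm : ((u1, u2, u3) * (v1, v2, v3) ^ r : Aff T × Aff T × Aff T) ∈ U :=
    U.mul_mem hu (U.pow_mem hv r)
  have kpow : ∀ (v : Aff T) (r : ℕ), (v ^ r).k = v.k ^ r := by
    intro v r
    induction r with
    | zero => simp
    | succ r ih => rw [pow_succ, pow_succ, mul_k, ih]
  have hYO : ((Y T (u1.k * v1.k ^ r)), (Y T (u2.k * v2.k ^ r)), (Y T (u3.k * v3.k ^ r))) ∈ O := by
    have h1 := hO _ hm
    have h2 := hO _ (U.inv_mem hm)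
    have h3 := O.sub_mem (O.add_mem h1 h2) (hint 2)
    convert h3 using 2
    · simp [Y, kpow]
    · congr 1
      · simp [Y, kpow]
      · simp [Y, kpow]
  have hc0 : (((T u1.k - 1) * v1.a - (T v1.k - 1) * u1.a),
      ((T u2.k - 1) * v2.a - (T v2.k - 1) * u2.a),
      ((T u3.k - 1) * v3.a - (T v3.k - 1) * u3.a)) ∈ C := by
    rw [hC]
    have := U.mul_mem (U.mul_mem hu hv) (U.inv_mem (U.mul_mem hv hu))
    have e : (u1, u2, u3) * (v1, v2, v3) * ((v1, v2, v3) * (u1, u2, u3))⁻¹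
      = (((⟨(T u1.k - 1) * v1.a - (T v1.k - 1) * u1.a, 1⟩ : Aff T),
        (⟨(T u2.k - 1) * v2.a - (T v2.k - 1) * u2.a, 1⟩ : Aff T),
        (⟨(T u3.k - 1) * v3.a - (T v3.k - 1) * u3.a, 1⟩ : Aff T))) :=
      Prod.ext (comm_eq _ _) (Prod.ext (comm_eq _ _) (comm_eq _ _))
    rw [e] at this
    exact this
  have hfin := (O.mul_mem (O.mul_mem (O.mul_mem (O.sub_mem hYO (hint (49 * z1)))
    (O.sub_mem hYO (hint (49 * z2)))) (O.sub_mem hYO (hint (49 * z3))))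
    (O.sub_mem (O.add_mem h3O (hO _ hu)) (hO _ hv))) _ hc0
  rw [hC] at hfin
  have e : ∀ {T : K →* N × R} (u v : Aff T), E S u v = ⟨(E S u v).a, 1⟩ := fun u v => rfl
  rw [e u1, e u2, e u3, ← c1, ← c2, ← c3]
  exact hfin

end comp

end Pool.Agent.Helper313.Cube
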