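import Pool.Agent.Helper313.CubeA

set_option autoImplicit false

namespace Pool.Agent.Helper313.Cube

section ids
variable {R : Type} [CommRing R]

lemma id_mul (p x y : R) (nine : p ^ 9 = 0) :
    ((1 + p * x) * (1 + p * y)) * (1 + (p ^ 6 - 3 * p ^ 7) *
      (6 * ((1 + p * x) * (1 + p * y) - 1) - 3 * ((1 + p * x) * (1 + p * y) - 1) ^ 2))
    = ((1 + p * x) * (1 + (p ^ 6 - 3 * p ^ 7) * (6 * (1 + p * x - 1) - 3 * (1 + p * x - 1) ^ 2)))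
    * ((1 + p * y) * (1 + (p ^ 6 - 3 * p ^ 7) * (6 * (1 + p * y - 1) - 3 * (1 + p * y - 1) ^ 2))) := by
  linear_combination ((-6) * x * y ^ 2 + (-6) * x ^ 2 * y + 18 * p * x * y ^ 2 + (-6) * p * x * y ^ 3
       + 18 * p * x ^ 2 * y + (-15) * p * x ^ 2 * y ^ 2 + (-6) * p * x ^ 3 * y
       + 18 * p ^ 2 * x * y ^ 3 + 45 * p ^ 2 * x ^ 2 * y ^ 2 + (-9) * p ^ 2 * x ^ 2 * y ^ 3
       + 18 * p ^ 2 * x ^ 3 * y + (-9) * p ^ 2 * x ^ 3 * y ^ 2 + 27 * p ^ 3 * x ^ 2 * y ^ 3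
       + 27 * p ^ 3 * x ^ 3 * y ^ 2 + (-3) * p ^ 3 * x ^ 3 * y ^ 3 + 9 * p ^ 4 * x ^ 3 * y ^ 3
       + (-36) * p ^ 5 * x * y + 216 * p ^ 6 * x * y + (-18) * p ^ 6 * x * y ^ 2
       + (-18) * p ^ 6 * x ^ 2 * y + (-324) * p ^ 7 * x * y + 108 * p ^ 7 * x * y ^ 2
       + 18 * p ^ 7 * x * y ^ 3 + 108 * p ^ 7 * x ^ 2 * y + (-9) * p ^ 7 * x ^ 2 * y ^ 2
       + 18 * p ^ 7 * x ^ 3 * y + (-162) * p ^ 8 * x * y ^ 2 + (-108) * p ^ 8 * x * y ^ 3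
       + (-162) * p ^ 8 * x ^ 2 * y + 54 * p ^ 8 * x ^ 2 * y ^ 2 + 9 * p ^ 8 * x ^ 2 * y ^ 3
       + (-108) * p ^ 8 * x ^ 3 * y + 9 * p ^ 8 * x ^ 3 * y ^ 2 + 162 * p ^ 9 * x * y ^ 3
       + (-81) * p ^ 9 * x ^ 2 * y ^ 2 + (-54) * p ^ 9 * x ^ 2 * y ^ 3 + 162 * p ^ 9 * x ^ 3 * y
       + (-54) * p ^ 9 * x ^ 3 * y ^ 2 + (-9) * p ^ 9 * x ^ 3 * y ^ 3
       + 81 * p ^ 10 * x ^ 2 * y ^ 3 + 81 * p ^ 10 * x ^ 3 * y ^ 2 + 54 * p ^ 10 * x ^ 3 * y ^ 3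
       + (-81) * p ^ 11 * x ^ 3 * y ^ 3) * nine

lemma id_phi (p x : R) (nine : p ^ 9 = 0) :
    (1 + (p ^ 6 - 3 * p ^ 7) * (3 * (1 + p * x - 1) - (1 + p * x - 1) ^ 2)) *
    (1 - (p ^ 6 - 3 * p ^ 7) * (3 * (1 + p * x - 1) - (1 + p * x - 1) ^ 2)) = 1 := by
  linear_combination ((-9) * p ^ 5 * x ^ 2 + 54 * p ^ 6 * x ^ 2 + 6 * p ^ 6 * x ^ 3 + (-81) * p ^ 7 * x ^ 2
       + (-36) * p ^ 7 * x ^ 3 + (-1) * p ^ 7 * x ^ 4 + 54 * p ^ 8 * x ^ 3 + 6 * p ^ 8 * x ^ 4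
       + (-9) * p ^ 9 * x ^ 4) * nine

lemma id_one (p x y a b : R) (nine : p ^ 9 = 0) :
    (1 + (p ^ 6 - 3 * p ^ 7) * (3 * (1 + p * x - 1) - (1 + p * x - 1) ^ 2)) * a
    + ((1 + p * x) * (1 + (p ^ 6 - 3 * p ^ 7) * (6 * (1 + p * x - 1) - 3 * (1 + p * x - 1) ^ 2)))
      * ((1 + (p ^ 6 - 3 * p ^ 7) * (3 * (1 + p * y - 1) - (1 + p * y - 1) ^ 2)) * b)
    = (1 + (p ^ 6 - 3 * p ^ 7) * (3 * ((1 + p * x) * (1 + p * y) - 1)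
        - ((1 + p * x) * (1 + p * y) - 1) ^ 2)) *
      ((p ^ 6 - 3 * p ^ 7) * (3 + (1 + p * x - 1) - (1 + p * y - 1)) *
        ((1 + p * x - 1) * b - (1 + p * y - 1) * a) + (a + (1 + p * x) * b)) := by
  linear_combination (2 * x * y ^ 2 * b + 2 * x * y ^ 2 * a + 1 * x ^ 2 * y * b + 2 * x ^ 2 * y * a
       + (-2) * x ^ 3 * b + (-6) * p * x * y ^ 2 * b + (-6) * p * x * y ^ 2 * a
       + (-3) * p * x ^ 2 * y * b + (-6) * p * x ^ 2 * y * a + 3 * p * x ^ 2 * y ^ 2 * b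
       + 1 * p * x ^ 2 * y ^ 2 * a + 6 * p * x ^ 3 * b + 2 * p * x ^ 3 * y * b
       + (-9) * p ^ 2 * x ^ 2 * y ^ 2 * b + (-3) * p ^ 2 * x ^ 2 * y ^ 2 * a
       + (-6) * p ^ 2 * x ^ 3 * y * b + 1 * p ^ 2 * x ^ 3 * y ^ 2 * b
       + (-3) * p ^ 3 * x ^ 3 * y ^ 2 * b + 9 * p ^ 5 * y ^ 2 * a + 9 * p ^ 5 * x * y * b
       + 9 * p ^ 5 * x * y * a + (-9) * p ^ 5 * x ^ 2 * b + (-54) * p ^ 6 * y ^ 2 * a
       + (-6) * p ^ 6 * y ^ 3 * a + (-54) * p ^ 6 * x * y * b + (-54) * p ^ 6 * x * y * a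
       + 3 * p ^ 6 * x * y ^ 2 * a + 54 * p ^ 6 * x ^ 2 * b + 6 * p ^ 6 * x ^ 2 * y * b
       + 81 * p ^ 7 * y ^ 2 * a + 36 * p ^ 7 * y ^ 3 * a + 1 * p ^ 7 * y ^ 4 * a
       + 81 * p ^ 7 * x * y * b + 81 * p ^ 7 * x * y * a + (-18) * p ^ 7 * x * y ^ 2 * a
       + (-1) * p ^ 7 * x * y ^ 3 * b + (-8) * p ^ 7 * x * y ^ 3 * a + (-81) * p ^ 7 * x ^ 2 * b
       + (-36) * p ^ 7 * x ^ 2 * y * b + 5 * p ^ 7 * x ^ 2 * y ^ 2 * b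
       + (-4) * p ^ 7 * x ^ 2 * y ^ 2 * a + (-5) * p ^ 7 * x ^ 3 * y * b
       + (-1) * p ^ 7 * x ^ 3 * y * a + 1 * p ^ 7 * x ^ 4 * b + (-54) * p ^ 8 * y ^ 3 * a
       + (-6) * p ^ 8 * y ^ 4 * a + 27 * p ^ 8 * x * y ^ 2 * a + 6 * p ^ 8 * x * y ^ 3 * b
       + 48 * p ^ 8 * x * y ^ 3 * a + 2 * p ^ 8 * x * y ^ 4 * a + 54 * p ^ 8 * x ^ 2 * y * b
       + (-30) * p ^ 8 * x ^ 2 * y ^ 2 * b + 24 * p ^ 8 * x ^ 2 * y ^ 2 * a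
       + (-2) * p ^ 8 * x ^ 2 * y ^ 3 * b + (-3) * p ^ 8 * x ^ 2 * y ^ 3 * a
       + 30 * p ^ 8 * x ^ 3 * y * b + 6 * p ^ 8 * x ^ 3 * y * a + 6 * p ^ 8 * x ^ 3 * y ^ 2 * b
       + (-2) * p ^ 8 * x ^ 3 * y ^ 2 * a + (-6) * p ^ 8 * x ^ 4 * b + 2 * p ^ 8 * x ^ 4 * y * b
       + 9 * p ^ 9 * y ^ 4 * a + (-9) * p ^ 9 * x * y ^ 3 * b + (-72) * p ^ 9 * x * y ^ 3 * a
       + (-12) * p ^ 9 * x * y ^ 4 * a + 45 * p ^ 9 * x ^ 2 * y ^ 2 * b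
       + (-36) * p ^ 9 * x ^ 2 * y ^ 2 * a + 12 * p ^ 9 * x ^ 2 * y ^ 3 * b
       + 18 * p ^ 9 * x ^ 2 * y ^ 3 * a + 1 * p ^ 9 * x ^ 2 * y ^ 4 * a
       + (-45) * p ^ 9 * x ^ 3 * y * b + (-9) * p ^ 9 * x ^ 3 * y * a
       + (-36) * p ^ 9 * x ^ 3 * y ^ 2 * b + 12 * p ^ 9 * x ^ 3 * y ^ 2 * a
       + (-1) * p ^ 9 * x ^ 3 * y ^ 3 * b + (-1) * p ^ 9 * x ^ 3 * y ^ 3 * a
       + 9 * p ^ 9 * x ^ 4 * b + (-12) * p ^ 9 * x ^ 4 * y * b + 1 * p ^ 9 * x ^ 4 * y ^ 2 * b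
       + 18 * p ^ 10 * x * y ^ 4 * a + (-18) * p ^ 10 * x ^ 2 * y ^ 3 * b
       + (-27) * p ^ 10 * x ^ 2 * y ^ 3 * a + (-6) * p ^ 10 * x ^ 2 * y ^ 4 * a
       + 54 * p ^ 10 * x ^ 3 * y ^ 2 * b + (-18) * p ^ 10 * x ^ 3 * y ^ 2 * a
       + 6 * p ^ 10 * x ^ 3 * y ^ 3 * b + 6 * p ^ 10 * x ^ 3 * y ^ 3 * a
       + 18 * p ^ 10 * x ^ 4 * y * b + (-6) * p ^ 10 * x ^ 4 * y ^ 2 * b
       + 9 * p ^ 11 * x ^ 2 * y ^ 4 * a + (-9) * p ^ 11 * x ^ 3 * y ^ 3 * b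
       + (-9) * p ^ 11 * x ^ 3 * y ^ 3 * a + 9 * p ^ 11 * x ^ 4 * y ^ 2 * b) * nine

lemma id_two (p x y a b : R) (nine : p ^ 9 = 0) :
    (1 - (p ^ 6 - 3 * p ^ 7) * (3 * (1 + p * x - 1) - (1 + p * x - 1) ^ 2)) * a
    + (1 + p * x) * ((1 - (p ^ 6 - 3 * p ^ 7) * (3 * (1 + p * y - 1) - (1 + p * y - 1) ^ 2)) * b)
    = (1 - (p ^ 6 - 3 * p ^ 7) * (3 * ((1 + p * x) * (1 + p * y) - 1)
        - ((1 + p * x) * (1 + p * y) - 1) ^ 2)) *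
      (-((p ^ 6 - 3 * p ^ 7) * (3 + (1 + p * x - 1) - (1 + p * y - 1)) *
        ((1 + p * x - 1) * b - (1 + p * y - 1) * a)) + (a + ((1 + p * x) * (1 + (p ^ 6 - 3 * p ^ 7) *
          (6 * (1 + p * x - 1) - 3 * (1 + p * x - 1) ^ 2))) * b)) := by
  linear_combination ((-2) * x * y ^ 2 * b + (-2) * x * y ^ 2 * a + (-1) * x ^ 2 * y * b + (-2) * x ^ 2 * y * a
       + 2 * x ^ 3 * b + 6 * p * x * y ^ 2 * b + 6 * p * x * y ^ 2 * a + 3 * p * x ^ 2 * y * b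
       + 6 * p * x ^ 2 * y * a + (-3) * p * x ^ 2 * y ^ 2 * b + (-1) * p * x ^ 2 * y ^ 2 * a
       + (-6) * p * x ^ 3 * b + (-2) * p * x ^ 3 * y * b + 9 * p ^ 2 * x ^ 2 * y ^ 2 * b
       + 3 * p ^ 2 * x ^ 2 * y ^ 2 * a + 6 * p ^ 2 * x ^ 3 * y * b
       + (-1) * p ^ 2 * x ^ 3 * y ^ 2 * b + 3 * p ^ 3 * x ^ 3 * y ^ 2 * b
       + 9 * p ^ 5 * y ^ 2 * a + 9 * p ^ 5 * x * y * b + 9 * p ^ 5 * x * y * a
       + 9 * p ^ 5 * x ^ 2 * b + (-54) * p ^ 6 * y ^ 2 * a + (-6) * p ^ 6 * y ^ 3 * a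
       + (-54) * p ^ 6 * x * y * b + (-54) * p ^ 6 * x * y * a + 3 * p ^ 6 * x * y ^ 2 * a
       + (-54) * p ^ 6 * x ^ 2 * b + 12 * p ^ 6 * x ^ 2 * y * b + 3 * p ^ 6 * x ^ 3 * b
       + 81 * p ^ 7 * y ^ 2 * a + 36 * p ^ 7 * y ^ 3 * a + 1 * p ^ 7 * y ^ 4 * a
       + 81 * p ^ 7 * x * y * b + 81 * p ^ 7 * x * y * a + (-18) * p ^ 7 * x * y ^ 2 * a
       + (-1) * p ^ 7 * x * y ^ 3 * b + (-8) * p ^ 7 * x * y ^ 3 * a + 81 * p ^ 7 * x ^ 2 * b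
       + (-72) * p ^ 7 * x ^ 2 * y * b + (-7) * p ^ 7 * x ^ 2 * y ^ 2 * b
       + (-4) * p ^ 7 * x ^ 2 * y ^ 2 * a + (-18) * p ^ 7 * x ^ 3 * b
       + (-14) * p ^ 7 * x ^ 3 * y * b + (-1) * p ^ 7 * x ^ 3 * y * a
       + (-11) * p ^ 7 * x ^ 4 * b + (-54) * p ^ 8 * y ^ 3 * a + (-6) * p ^ 8 * y ^ 4 * a
       + 27 * p ^ 8 * x * y ^ 2 * a + 6 * p ^ 8 * x * y ^ 3 * b + 48 * p ^ 8 * x * y ^ 3 * a
       + 2 * p ^ 8 * x * y ^ 4 * a + 108 * p ^ 8 * x ^ 2 * y * b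
       + 42 * p ^ 8 * x ^ 2 * y ^ 2 * b + 24 * p ^ 8 * x ^ 2 * y ^ 2 * a
       + (-2) * p ^ 8 * x ^ 2 * y ^ 3 * b + (-3) * p ^ 8 * x ^ 2 * y ^ 3 * a
       + 27 * p ^ 8 * x ^ 3 * b + 84 * p ^ 8 * x ^ 3 * y * b + 6 * p ^ 8 * x ^ 3 * y * a
       + (-6) * p ^ 8 * x ^ 3 * y ^ 2 * b + (-2) * p ^ 8 * x ^ 3 * y ^ 2 * a
       + 66 * p ^ 8 * x ^ 4 * b + (-7) * p ^ 8 * x ^ 4 * y * b + 3 * p ^ 8 * x ^ 5 * b
       + 9 * p ^ 9 * y ^ 4 * a + (-9) * p ^ 9 * x * y ^ 3 * b + (-72) * p ^ 9 * x * y ^ 3 * a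
       + (-12) * p ^ 9 * x * y ^ 4 * a + (-63) * p ^ 9 * x ^ 2 * y ^ 2 * b
       + (-36) * p ^ 9 * x ^ 2 * y ^ 2 * a + 12 * p ^ 9 * x ^ 2 * y ^ 3 * b
       + 18 * p ^ 9 * x ^ 2 * y ^ 3 * a + 1 * p ^ 9 * x ^ 2 * y ^ 4 * a
       + (-126) * p ^ 9 * x ^ 3 * y * b + (-9) * p ^ 9 * x ^ 3 * y * a
       + 36 * p ^ 9 * x ^ 3 * y ^ 2 * b + 12 * p ^ 9 * x ^ 3 * y ^ 2 * a
       + (-1) * p ^ 9 * x ^ 3 * y ^ 3 * b + (-1) * p ^ 9 * x ^ 3 * y ^ 3 * a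
       + (-99) * p ^ 9 * x ^ 4 * b + 42 * p ^ 9 * x ^ 4 * y * b + 4 * p ^ 9 * x ^ 4 * y ^ 2 * b
       + (-18) * p ^ 9 * x ^ 5 * b + 6 * p ^ 9 * x ^ 5 * y * b + 18 * p ^ 10 * x * y ^ 4 * a
       + (-18) * p ^ 10 * x ^ 2 * y ^ 3 * b + (-27) * p ^ 10 * x ^ 2 * y ^ 3 * a
       + (-6) * p ^ 10 * x ^ 2 * y ^ 4 * a + (-54) * p ^ 10 * x ^ 3 * y ^ 2 * b
       + (-18) * p ^ 10 * x ^ 3 * y ^ 2 * a + 6 * p ^ 10 * x ^ 3 * y ^ 3 * b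
       + 6 * p ^ 10 * x ^ 3 * y ^ 3 * a + (-63) * p ^ 10 * x ^ 4 * y * b
       + (-24) * p ^ 10 * x ^ 4 * y ^ 2 * b + 27 * p ^ 10 * x ^ 5 * b
       + (-36) * p ^ 10 * x ^ 5 * y * b + 3 * p ^ 10 * x ^ 5 * y ^ 2 * b
       + 9 * p ^ 11 * x ^ 2 * y ^ 4 * a + (-9) * p ^ 11 * x ^ 3 * y ^ 3 * b
       + (-9) * p ^ 11 * x ^ 3 * y ^ 3 * a + 36 * p ^ 11 * x ^ 4 * y ^ 2 * b
       + 54 * p ^ 11 * x ^ 5 * y * b + (-18) * p ^ 11 * x ^ 5 * y ^ 2 * b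
       + 27 * p ^ 12 * x ^ 5 * y ^ 2 * b) * nine

end ids

section main
variable {N R K : Type} [CommRing N] [CommRing R] [CommGroup K] (S : Setup N R K)

lemma i_two (k : K) : ∃ x, (S.i k).2 = 1 + S.p * x := by
  obtain ⟨n, rfl⟩ := S.gen k
  obtain ⟨C, e, -, he⟩ := expand S.p n
  refine ⟨n + C * S.p + S.p ^ 2 * e, ?_⟩
  rw [i_pow, he]; ring

/-- the twisted action -/
def TH : K →* N × R where
  toFun k := ((S.i k).1, (S.i k).2 * (1 + (S.p ^ 6 - 3 * S.p ^ 7) *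
    (6 * ((S.i k).2 - 1) - 3 * ((S.i k).2 - 1) ^ 2)))
  map_one' := by simp
  map_mul' k l := by
    obtain ⟨x, hx⟩ := i_two S k
    obtain ⟨y, hy⟩ := i_two S l
    ext
    · simp
    · simp only [map_mul, Prod.snd_mul]
      rw [hx, hy]
      exact id_mul S.p x y S.nine

lemma TH_one (k : K) : (TH S k).1 = (S.i k).1 := rfl
lemma TH_two (k : K) : (TH S k).2 = (S.i k).2 * (1 + (S.p ^ 6 - 3 * S.p ^ 7) *
    (6 * ((S.i k).2 - 1) - 3 * ((S.i k).2 - 1) ^ 2)) := rfl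

lemma close_i : Close S S.i := ⟨fun _ => rfl, fun _ => ⟨0, by simp⟩⟩

lemma close_T : Close S (TH S) := ⟨fun _ => rfl, fun k => by
  obtain ⟨x, hx⟩ := i_two S k
  refine ⟨(1 + S.p * x) * (1 - 3 * S.p) * (6 * x - 3 * S.p * x ^ 2), ?_⟩
  rw [TH_two, hx]; ring⟩

def phi (k : K) : N × R :=
  (1, 1 + (S.p ^ 6 - 3 * S.p ^ 7) * (3 * ((S.i k).2 - 1) - ((S.i k).2 - 1) ^ 2))
def phi' (k : K) : N × R :=
  (1, 1 - (S.p ^ 6 - 3 * S.p ^ 7) * (3 * ((S.i k).2 - 1) - ((S.i k).2 - 1) ^ 2))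

lemma phi_phi' (k : K) : phi S k * phi' S k = 1 := by
  obtain ⟨x, hx⟩ := i_two S k
  ext
  · simp [phi, phi']
  · simp only [phi, phi', Prod.snd_mul, Prod.snd_one]
    rw [hx]; exact id_phi S.p x S.nine

/-- the set bijection -/
def psi : Aff S.i ≃ Aff (TH S) where
  toFun u := ⟨phi S u.k * u.a, u.k⟩
  invFun u := ⟨phi' S u.k * u.a, u.k⟩
  left_inv u := by
    have h := phi_phi' S u.k
    refine Aff.ext ?_ rfl
    show phi' S u.k * (phi S u.k * u.a) = u.a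
    linear_combination u.a * h
  right_inv u := by
    have h := phi_phi' S u.k
    refine Aff.ext ?_ rfl
    show phi S u.k * (phi' S u.k * u.a) = u.a
    linear_combination u.a * h

lemma psi_mul (u v : Aff S.i) : psi S u * psi S v = psi S (E S u v * (u * v)) := by
  obtain ⟨x, hx⟩ := i_two S u.k
  obtain ⟨y, hy⟩ := i_two S v.k
  refine Aff.ext ?_ ?_
  · show phi S u.k * u.a + TH S u.k * (phi S v.k * v.a)
      = phi S (1 * (u.k * v.k)) * ((E S u v).a + S.i 1 * (u.a + S.i u.k * v.a))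
    rw [one_mul, map_one, one_mul]
    ext
    · simp only [Prod.fst_add, Prod.fst_mul, phi, TH_one, E]; ring
    · simp only [Prod.snd_add, Prod.snd_mul, phi, TH_two, E, map_mul]
      rw [hx, hy]
      exact id_one S.p x y u.a.2 v.a.2 S.nine
  · show u.k * v.k = 1 * (u.k * v.k)
    rw [one_mul]

lemma psi_symm_mul (u v : Aff (TH S)) :
    (psi S).symm u * (psi S).symm v = (psi S).symm ((E S u v)⁻¹ * (u * v)) := by
  obtain ⟨x, hx⟩ := i_two S u.k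
  obtain ⟨y, hy⟩ := i_two S v.k
  refine Aff.ext ?_ ?_
  · show phi' S u.k * u.a + S.i u.k * (phi' S v.k * v.a)
      = phi' S (1⁻¹ * (u.k * v.k)) * (-(TH S 1⁻¹ * (E S u v).a) + TH S 1⁻¹ *
        (u.a + TH S u.k * v.a))
    rw [inv_one, one_mul, map_one, one_mul, one_mul]
    ext
    · simp only [Prod.fst_add, Prod.fst_mul, Prod.fst_neg, phi', TH_one, E]; ring
    · simp only [Prod.snd_add, Prod.snd_mul, Prod.snd_neg, phi', TH_two, E, map_mul]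
      rw [hx, hy]
      exact id_two S.p x y u.a.2 v.a.2 S.nine
  · show u.k * v.k = 1⁻¹ * (u.k * v.k)
    rw [inv_one, one_mul]

/-- a multiplicatively closed set with one in a finite group is a subgroup -/
def subOfClosed {G : Type} [Group G] [Finite G] (A : Set G) (h1 : (1 : G) ∈ A)
    (hm : ∀ x ∈ A, ∀ y ∈ A, x * y ∈ A) : Subgroup G where
  carrier := A
  one_mem' := h1
  mul_mem' := fun {x y} hx hy => hm x hx y hy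
  inv_mem' := by
    intro x hx
    have hp : ∀ n : ℕ, x ^ n ∈ A := by
      intro n
      induction n with
      | zero => simpa using h1
      | succ n ih => rw [pow_succ]; exact hm _ ih _ hx
    have ho : 0 < orderOf x := orderOf_pos x
    have : x⁻¹ = x ^ (orderOf x - 1) := by
      rw [inv_eq_iff_mul_eq_one, ← pow_succ', Nat.sub_add_cancel ho, pow_orderOf_eq_one]
    show x⁻¹ ∈ A
    rw [this]; exact hp _

lemma mem_subOfClosed {G : Type} [Group G] [Finite G] (A : Set G) (h1 : (1 : G) ∈ A)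
    (hm : ∀ x ∈ A, ∀ y ∈ A, x * y ∈ A) (x : G) : x ∈ subOfClosed A h1 hm ↔ x ∈ A := Iff.rfl

abbrev G1 := Aff S.i
abbrev H1 := Aff (TH S)

def psi3 : (G1 S × G1 S × G1 S) ≃ (H1 S × H1 S × H1 S) :=
  Equiv.prodCongr (psi S) (Equiv.prodCongr (psi S) (psi S))

lemma psi3_apply (u : G1 S × G1 S × G1 S) : psi3 S u = (psi S u.1, psi S u.2.1, psi S u.2.2) := rfl
lemma psi3_symm_apply (u : H1 S × H1 S × H1 S) :
    (psi3 S).symm u = ((psi S).symm u.1, (psi S).symm u.2.1, (psi S).symm u.2.2) := rfl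

lemma psi_one : psi S 1 = 1 := by
  refine Aff.ext ?_ rfl
  show phi S 1 * 0 = 0
  rw [mul_zero]

lemma psi_symm_one : (psi S).symm 1 = 1 := by rw [Equiv.symm_apply_eq, psi_one]

variable [Finite N] [Finite R] [Finite K]

def toH (U : Subgroup (G1 S × G1 S × G1 S)) : Subgroup (H1 S × H1 S × H1 S) :=
  subOfClosed {h | (psi3 S).symm h ∈ U}
    (by
      show (psi3 S).symm 1 ∈ U
      have : (psi3 S).symm 1 = 1 := by
        rw [psi3_symm_apply]; exact Prod.ext (psi_symm_one S) (Prod.ext (psi_symm_one S) (psi_symm_one S))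
      rw [this]; exact U.one_mem)
    (by
      intro x hx y hy
      have hx' : (psi3 S).symm x ∈ U := hx
      have hy' : (psi3 S).symm y ∈ U := hy
      obtain ⟨u, rfl⟩ := (psi3 S).surjective x
      obtain ⟨v, rfl⟩ := (psi3 S).surjective y
      rw [Equiv.symm_apply_apply] at hx' hy'
      have hE := local_mem (close_i S) U u v hx' hy'
      have h1 := U.mul_mem hE (U.mul_mem hx' hy')
      have h2 : psi3 S u * psi3 S v = psi3 S ((E S u.1 v.1, E S u.2.1 v.2.1, E S u.2.2 v.2.2) * (u * v)) :=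
        Prod.ext (psi_mul S u.1 v.1) (Prod.ext (psi_mul S u.2.1 v.2.1) (psi_mul S u.2.2 v.2.2))
      show (psi3 S).symm (psi3 S u * psi3 S v) ∈ U
      rw [h2, Equiv.symm_apply_apply]; exact h1)

def toG (U : Subgroup (H1 S × H1 S × H1 S)) : Subgroup (G1 S × G1 S × G1 S) :=
  subOfClosed {h | psi3 S h ∈ U}
    (by
      show psi3 S 1 ∈ U
      have : psi3 S 1 = 1 := by
        rw [psi3_apply]; exact Prod.ext (psi_one S) (Prod.ext (psi_one S) (psi_one S))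
      rw [this]; exact U.one_mem)
    (by
      intro x hx y hy
      have hx' : psi3 S x ∈ U := hx
      have hy' : psi3 S y ∈ U := hy
      obtain ⟨u, rfl⟩ := (psi3 S).symm.surjective x
      obtain ⟨v, rfl⟩ := (psi3 S).symm.surjective y
      rw [Equiv.apply_symm_apply] at hx' hy'
      have hE := local_mem (close_T S) U u v hx' hy'
      have h1 := U.mul_mem (U.inv_mem hE) (U.mul_mem hx' hy')
      have h2 : (psi3 S).symm u * (psi3 S).symm v =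
          (psi3 S).symm ((E S u.1 v.1, E S u.2.1 v.2.1, E S u.2.2 v.2.2)⁻¹ * (u * v)) :=
        Prod.ext (psi_symm_mul S u.1 v.1)
          (Prod.ext (psi_symm_mul S u.2.1 v.2.1) (psi_symm_mul S u.2.2 v.2.2))
      show psi3 S ((psi3 S).symm u * (psi3 S).symm v) ∈ U
      rw [h2, Equiv.apply_symm_apply]; exact h1)

lemma mem_toH (U : Subgroup (G1 S × G1 S × G1 S)) (x) : x ∈ toH S U ↔ (psi3 S).symm x ∈ U := Iff.rfl
lemma mem_toG (U : Subgroup (H1 S × H1 S × H1 S)) (x) : x ∈ toG S U ↔ psi3 S x ∈ U := Iff.rfl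

/-- the isomorphism of subgroup lattices of the cubes -/
def latIso : Subgroup (G1 S × G1 S × G1 S) ≃o Subgroup (H1 S × H1 S × H1 S) where
  toFun := toH S
  invFun := toG S
  left_inv U := by
    ext x
    rw [mem_toG, mem_toH, Equiv.symm_apply_apply]
  right_inv U := by
    ext x
    rw [mem_toH, mem_toG, Equiv.apply_symm_apply]
  map_rel_iff' := by
    intro U V
    constructor
    · intro h x hx
      have h1 : psi3 S x ∈ toH S U := by rw [mem_toH, Equiv.symm_apply_apply]; exact hx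
      have h2 : psi3 S x ∈ toH S V := h h1
      rw [mem_toH, Equiv.symm_apply_apply] at h2
      exact h2
    · intro h x hx
      have hx' : x ∈ toH S U := hx
      rw [mem_toH] at hx'
      show x ∈ toH S V
      rw [mem_toH]
      exact h hx'

end main

end Pool.Agent.Helper313.Cube
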