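import Pool.Agent.Helper313.CubeB

set_option autoImplicit false

namespace Pool.Agent.Helper313.Cube

open Polynomial

section newton

lemma coprime7 (n : ℕ) (w : ℤ) (hw : IsCoprime (7 : ℤ) w) : IsCoprime ((7 : ℤ) ^ n) w :=
  IsCoprime.pow_left hw

lemma div_step (q x y : ℤ) (i d n : ℕ) (hd1 : 1 ≤ d) (hd6 : d ≤ 6)
    (h : q * (8 ^ (i + d) - 8 ^ i) = x - y) (hx : (7 : ℤ) ^ (n + 1) ∣ x)
    (hy : (7 : ℤ) ^ (n + 1) ∣ y) : (7 : ℤ) ^ n ∣ q := by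
  obtain ⟨u, hu, hcop⟩ : ∃ u : ℤ, (8 : ℤ) ^ d - 1 = 7 * u ∧ IsCoprime (7 : ℤ) u := by
    interval_cases d
    · exact ⟨1, by norm_num, by norm_num⟩
    · exact ⟨9, by norm_num, by norm_num⟩
    · exact ⟨73, by norm_num, by norm_num⟩
    · exact ⟨585, by norm_num, by norm_num⟩
    · exact ⟨4681, by norm_num, by norm_num⟩
    · exact ⟨37449, by norm_num, by norm_num⟩
  have h1 : (7 : ℤ) ^ (n + 1) ∣ x - y := dvd_sub hx hy
  rw [← h] at h1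
  have h2 : q * ((8 : ℤ) ^ (i + d) - 8 ^ i) = 7 * (q * (8 ^ i * u)) := by
    rw [pow_add]; linear_combination (q * 8 ^ i) * hu
  rw [h2, pow_succ, mul_comm ((7 : ℤ) ^ n) 7] at h1
  have h3 : (7 : ℤ) ^ n ∣ q * (8 ^ i * u) := (mul_dvd_mul_iff_left (by norm_num)).1 h1
  have h8 : IsCoprime (7 : ℤ) (8 ^ i * u) := by
    refine IsCoprime.mul_right (IsCoprime.pow_right ?_) hcop
    norm_num
  exact (coprime7 n _ h8).dvd_of_dvd_mul_right h3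

lemma div_step7 (q x y : ℤ) (n : ℕ)
    (h : q * (8 ^ 7 - 1) = x - y) (hx : (7 : ℤ) ^ (n + 2) ∣ x)
    (hy : (7 : ℤ) ^ (n + 2) ∣ y) : (7 : ℤ) ^ n ∣ q := by
  have h1 : (7 : ℤ) ^ (n + 2) ∣ x - y := dvd_sub hx hy
  rw [← h] at h1
  have h2 : q * ((8 : ℤ) ^ 7 - 1) = 7 ^ 2 * (q * 42799) := by ring
  rw [h2, pow_add, mul_comm ((7 : ℤ) ^ n) _] at h1
  have h3 : (7 : ℤ) ^ n ∣ q * 42799 := (mul_dvd_mul_iff_left (by norm_num)).1 h1
  exact (coprime7 n _ (by norm_num)).dvd_of_dvd_mul_right h3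

lemma divide (P : ℤ[X]) (i : ℕ) : ∃ Q : ℤ[X], P = C (P.eval (8 ^ i)) + (X - C (8 ^ i)) * Q := by
  obtain ⟨Q, hQ⟩ := Polynomial.X_sub_C_dvd_sub_C_eval (a := (8 : ℤ) ^ i) (p := P)
  exact ⟨Q, by rw [← hQ]; ring⟩

lemma divide_eval (P Q : ℤ[X]) (i s : ℕ) (h : P = C (P.eval (8 ^ i)) + (X - C (8 ^ i)) * Q) :
    Q.eval (8 ^ s) * (8 ^ s - 8 ^ i) = P.eval (8 ^ s) - P.eval (8 ^ i) := by
  have := congrArg (Polynomial.eval ((8 : ℤ) ^ s)) h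
  rw [eval_add, eval_mul, eval_C, eval_sub, eval_X, eval_C] at this
  linarith

/-- one step: `P` with divisibility at `8 ^ s` for `i ≤ s ≤ 6` by `7 ^ (n + 1)` and at `8 ^ 7` by `7 ^ (m + 1)` -/
lemma one_step (P : ℤ[X]) (i n m : ℕ) (hi : 1 ≤ i) (hi6 : i ≤ 6) (hmn : m ≤ n)
    (h : ∀ s, i ≤ s → s ≤ 6 → (7 : ℤ) ^ (n + 1) ∣ P.eval (8 ^ s))
    (h7 : (7 : ℤ) ^ (m + 1) ∣ P.eval (8 ^ 7)) :
    ∃ Q : ℤ[X], P = C (P.eval (8 ^ i)) + (X - C (8 ^ i)) * Q ∧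
      (∀ s, i + 1 ≤ s → s ≤ 6 → (7 : ℤ) ^ n ∣ Q.eval (8 ^ s)) ∧ (7 : ℤ) ^ m ∣ Q.eval (8 ^ 7) := by
  obtain ⟨Q, hQ⟩ := divide P i
  refine ⟨Q, hQ, ?_, ?_⟩
  · intro s hs hs6
    obtain ⟨d, rfl⟩ := Nat.exists_eq_add_of_le (show i ≤ s by omega)
    exact div_step _ _ _ i d n (by omega) (by omega) (divide_eval P Q i (i + d) hQ)
      (h _ (by omega) hs6) (h _ le_rfl hi6)
  · obtain ⟨d, hd⟩ := Nat.exists_eq_add_of_le (show i ≤ 7 by omega)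
    have he := divide_eval P Q i 7 hQ
    rw [hd] at he h7 ⊢
    exact div_step _ _ _ i d m (by omega) (by omega) he h7
      ((pow_dvd_pow 7 (by omega)).trans (h _ le_rfl hi6))

variable {R : Type} [CommRing R]

lemma aeval_step (p : R) (sq : p ^ 2 = 7) (P Q : ℤ[X]) (i : ℕ) 
    (h : P = C (P.eval (8 ^ i)) + (X - C (8 ^ i)) * Q) :
    ∃ f : R, aeval (1 + p) P = ((P.eval (8 ^ i) : ℤ) : R) + p * f * aeval (1 + p) Q := by
  have := congrArg (aeval (1 + p)) h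
  rw [map_add, map_mul, map_sub, aeval_X, aeval_C, aeval_C] at this
  obtain ⟨w, hw⟩ : ∃ w : ℤ, (8 : ℤ) ^ i = 1 + 7 * w := by
    have : (7 : ℤ) ∣ 8 ^ i - 1 := by
      simpa using sub_dvd_pow_sub_pow (8 : ℤ) 1 i
    obtain ⟨w, hw⟩ := this
    exact ⟨w, by linarith⟩
  refine ⟨1 - p * w, ?_⟩
  rw [this, hw]
  simp only [algebraMap_int_eq, eq_intCast]
  push_cast
  linear_combination ((w : R) * aeval (1 + p) Q) * sq

lemma lift_step (p A0 F A A' c f : R) (i : ℕ) (h0 : A0 = p ^ i * F * A) (h1 : A = c + p * f * A')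
    (hc : p ^ i * c = 0) : A0 = p ^ (i + 1) * (F * f) * A' := by
  rw [h0, h1, pow_succ]
  linear_combination F * hc

lemma seven_pow (p : R) (sq : p ^ 2 = 7) (nine : p ^ 9 = 0) (i n : ℕ) (c : ℤ) (hin : 9 ≤ 2 * n + i)
    (h : (7 : ℤ) ^ n ∣ c) : p ^ i * (c : R) = 0 := by
  obtain ⟨d, rfl⟩ := h
  push_cast
  rw [← sq]
  obtain ⟨k, hk⟩ := Nat.exists_eq_add_of_le hin
  have : p ^ i * ((p ^ 2) ^ n * (d : R)) = p ^ (2 * n + i) * d := by ring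
  rw [this, hk, pow_add, nine]; ring

lemma newton (p : R) (sq : p ^ 2 = 7) (nine : p ^ 9 = 0) (P : ℤ[X])
    (h : ∀ s, s ≤ 7 → (7 : ℤ) ^ 9 ∣ P.eval (8 ^ s)) : ∃ e : R, aeval (1 + p) P = p ^ 8 * e := by
  -- step 0
  obtain ⟨P1, hP1⟩ := divide P 0
  have h1 : ∀ s, 1 ≤ s → s ≤ 6 → (7 : ℤ) ^ 8 ∣ P1.eval (8 ^ s) := by
    intro s hs hs6
    have he := divide_eval P P1 0 s hP1
    refine div_step _ _ _ 0 s 8 hs hs6 ?_ (h s (by omega)) (h 0 (by omega))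
    rw [zero_add]; exact he
  have h17 : (7 : ℤ) ^ 7 ∣ P1.eval (8 ^ 7) := by
    have he := divide_eval P P1 0 7 hP1
    rw [pow_zero] at he
    refine div_step7 _ _ _ 7 he (h 7 le_rfl) ?_
    simpa using h 0 (by omega)
  obtain ⟨P2, hP2, h2, h27⟩ := one_step P1 1 7 6 (by omega) (by omega) (by omega) h1 h17
  obtain ⟨P3, hP3, h3, h37⟩ := one_step P2 2 6 5 (by omega) (by omega) (by omega) h2 h27
  obtain ⟨P4, hP4, h4, h47⟩ := one_step P3 3 5 4 (by omega) (by omega) (by omega) h3 h37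
  obtain ⟨P5, hP5, h5, h57⟩ := one_step P4 4 4 3 (by omega) (by omega) (by omega) h4 h47
  obtain ⟨P6, hP6, h6, h67⟩ := one_step P5 5 3 2 (by omega) (by omega) (by omega) h5 h57
  obtain ⟨P7, hP7, h7, h77⟩ := one_step P6 6 2 1 (by omega) (by omega) (by omega) h6 h67
  obtain ⟨P8, hP8⟩ := divide P7 7
  obtain ⟨f0, e0⟩ := aeval_step p sq P P1 0 hP1
  obtain ⟨f1, e1⟩ := aeval_step p sq P1 P2 1 hP2
  obtain ⟨f2, e2⟩ := aeval_step p sq P2 P3 2 hP3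
  obtain ⟨f3, e3⟩ := aeval_step p sq P3 P4 3 hP4
  obtain ⟨f4, e4⟩ := aeval_step p sq P4 P5 4 hP5
  obtain ⟨f5, e5⟩ := aeval_step p sq P5 P6 5 hP6
  obtain ⟨f6, e6⟩ := aeval_step p sq P6 P7 6 hP7
  obtain ⟨f7, e7⟩ := aeval_step p sq P7 P8 7 hP8
  have a0 : aeval (1 + p) P = p ^ 0 * 1 * aeval (1 + p) P := by ring
  have a1 := lift_step p _ _ _ _ _ _ 0 a0 e0 (seven_pow p sq nine 0 9 _ (by omega) (h 0 (by omega)))
  have a2 := lift_step p _ _ _ _ _ _ 1 a1 e1 (seven_pow p sq nine 1 8 _ (by omega) (h1 1 (by omega) (by omega)))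
  have a3 := lift_step p _ _ _ _ _ _ 2 a2 e2 (seven_pow p sq nine 2 7 _ (by omega) (h2 2 (by omega) (by omega)))
  have a4 := lift_step p _ _ _ _ _ _ 3 a3 e3 (seven_pow p sq nine 3 6 _ (by omega) (h3 3 (by omega) (by omega)))
  have a5 := lift_step p _ _ _ _ _ _ 4 a4 e4 (seven_pow p sq nine 4 5 _ (by omega) (h4 4 (by omega) (by omega)))
  have a6 := lift_step p _ _ _ _ _ _ 5 a5 e5 (seven_pow p sq nine 5 4 _ (by omega) (h5 5 (by omega) (by omega)))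
  have a7 := lift_step p _ _ _ _ _ _ 6 a6 e6 (seven_pow p sq nine 6 3 _ (by omega) (h6 6 (by omega) (by omega)))
  obtain ⟨y, hy⟩ := h77
  rw [pow_one] at hy
  refine ⟨(1 * f0 * f1 * f2 * f3 * f4 * f5 * f6) * (p * y + f7 * aeval (1 + p) P8), ?_⟩
  rw [a7, e7, hy]
  push_cast
  rw [← sq]; ring

end newton

end Pool.Agent.Helper313.Cube
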