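import Pool.Agent.Helper313.CubeC

set_option autoImplicit false

namespace Pool.Agent.Helper313.Cube

open Polynomial

section words

/-- evaluation of an integer polynomial -/
def ev {L : Type} [CommRing L] (x : L) (P : ℤ[X]) : L := P.eval₂ (Int.castRingHom L) x

section evs
variable {L : Type} [CommRing L] (x : L) (P Q : ℤ[X])
@[simp] lemma ev_zero : ev x 0 = 0 := by simp [ev]
@[simp] lemma ev_one : ev x 1 = 1 := by simp [ev]
@[simp] lemma ev_add : ev x (P + Q) = ev x P + ev x Q := by simp [ev, eval₂_add]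
@[simp] lemma ev_sub : ev x (P - Q) = ev x P - ev x Q := by simp [ev, eval₂_sub]
@[simp] lemma ev_mul : ev x (P * Q) = ev x P * ev x Q := by simp [ev, eval₂_mul]
@[simp] lemma ev_neg : ev x (-P) = -ev x P := by simp [ev, eval₂_neg]
@[simp] lemma ev_Xpow (n : ℕ) : ev x (X ^ n) = x ^ n := by simp [ev]

lemma ev_fst {N R : Type} [CommRing N] [CommRing R] (x : N × R) (P : ℤ[X]) :
    (ev x P).1 = ev x.1 P := by
  have := Polynomial.hom_eval₂ P (Int.castRingHom (N × R)) (RingHom.fst N R) x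
  have e : (RingHom.fst N R).comp (Int.castRingHom (N × R)) = Int.castRingHom N := by
    ext; simp
  rw [e] at this
  exact this

lemma ev_snd {N R : Type} [CommRing N] [CommRing R] (x : N × R) (P : ℤ[X]) :
    (ev x P).2 = ev x.2 P := by
  have := Polynomial.hom_eval₂ P (Int.castRingHom (N × R)) (RingHom.snd N R) x
  have e : (RingHom.snd N R).comp (Int.castRingHom (N × R)) = Int.castRingHom R := by
    ext; simp
  rw [e] at this
  exact this

lemma ev_aeval : ev x P = aeval x P := by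
  rw [aeval_def, ev]; rfl

lemma ev_cast (n : ℤ) : ev (n : L) P = ((P.eval n : ℤ) : L) := by
  have := Polynomial.hom_eval₂ P (RingHom.id ℤ) (Int.castRingHom L) n
  simp only [RingHom.comp_id] at this
  rw [ev, eval]; exact this.symm

end evs

variable {G : Type} [Group G]

lemma comm_aux1 {x y : G} (h : Commute x y) (w : FreeGroup (Fin 2)) :
    Commute (FreeGroup.lift ![x, 1] w) y := by
  induction w using FreeGroup.induction_on with
  | C1 => simp
  | of i =>
    fin_cases i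
    · simpa using h
    · simp
  | inv_of i ih => rw [map_inv]; exact ih.inv_left
  | mul a b iha ihb => rw [map_mul]; exact iha.mul_left ihb

lemma comm_aux2 {x y : G} (h : Commute x y) (w w' : FreeGroup (Fin 2)) :
    Commute (FreeGroup.lift ![x, 1] w) (FreeGroup.lift ![1, y] w') := by
  induction w' using FreeGroup.induction_on with
  | C1 => simp
  | of i =>
    fin_cases i
    · simp
    · simpa using comm_aux1 h w
  | inv_of i ih => rw [map_inv]; exact ih.inv_right
  | mul a b iha ihb => rw [map_mul]; exact iha.mul_right ihb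

lemma lift_comm {x y : G} (h : Commute x y) (w : FreeGroup (Fin 2)) :
    FreeGroup.lift ![x, y] w = FreeGroup.lift ![x, 1] w * FreeGroup.lift ![1, y] w := by
  induction w using FreeGroup.induction_on with
  | C1 => simp
  | of i =>
    fin_cases i
    · simp
    · simp
  | inv_of i ih =>
    rw [map_inv, map_inv, map_inv, ih, mul_inv_rev]
    exact ((comm_aux2 h _ _).inv_inv.eq).symm
  | mul a b iha ihb =>
    rw [map_mul, map_mul, map_mul, iha, ihb]
    have := (comm_aux2 h b a).eq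
    rw [mul_assoc, mul_assoc, ← mul_assoc (FreeGroup.lift ![1, y] a), ← this]
    simp only [mul_assoc]

lemma word_poly {K L : Type} [CommGroup K] [CommRing L] {T : K →* L} (M : ℕ) (hM : 0 < M)
    (hK : ∀ k : K, k ^ M = 1) (e : Fin 2 → ℕ) (P : Fin 2 → ℤ[X]) (w : FreeGroup (Fin 2)) :
    ∃ (P' : ℤ[X]) (e' : ℕ), ∀ (k : K) (b : L),
      FreeGroup.lift (fun i => (⟨ev (T k) (P i) * b, k ^ e i⟩ : Aff T)) w
        = ⟨ev (T k) P' * b, k ^ e'⟩ := by
  induction w using FreeGroup.induction_on with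
  | C1 =>
    refine ⟨0, 0, fun k b => ?_⟩
    rw [map_one]
    refine Aff.ext ?_ ?_
    · show (0 : L) = _
      simp
    · show (1 : K) = _
      simp
  | of i => exact ⟨P i, e i, fun k b => by simp⟩
  | inv_of i _ =>
    refine ⟨-(X ^ (e i * (M - 1)) * P i), e i * (M - 1), fun k b => ?_⟩
    have hinv : (k ^ e i)⁻¹ = k ^ (e i * (M - 1)) := by
      rw [inv_eq_iff_mul_eq_one, ← pow_add]
      have : e i + e i * (M - 1) = M * e i := by
        obtain ⟨m, rfl⟩ := Nat.exists_eq_add_of_le' hM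
        simp; ring
      rw [this, pow_mul, hK, one_pow]
    rw [map_inv, FreeGroup.lift_apply_of]
    refine Aff.ext ?_ ?_
    · rw [inv_a]
      show -(T (k ^ e i)⁻¹ * (ev (T k) (P i) * b)) = _
      rw [hinv, map_pow]
      simp; ring
    · rw [inv_k]; exact hinv
  | mul a b iha ihb =>
    obtain ⟨P1, e1, h1⟩ := iha
    obtain ⟨P2, e2, h2⟩ := ihb
    refine ⟨P1 + X ^ e1 * P2, e1 + e2, fun k b => ?_⟩
    rw [map_mul, h1, h2, mk_mul_mk]
    refine Aff.ext ?_ ?_
    · show ev (T k) P1 * b + T (k ^ e1) * (ev (T k) P2 * b) = _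
      rw [map_pow]; simp; ring
    · show k ^ e1 * k ^ e2 = _
      rw [pow_add]

end words

section extract
variable {N R K : Type} [CommRing N] [CommRing R] [CommGroup K] (S : Setup N R K)

/-- what we extract from a term equivalence -/
structure Core where
  F : N × R → H1 S
  h : H1 S
  t : N × R
  PA : ℤ[X]
  PB : ℤ[X]
  A : K → N × R
  add : ∀ b c, F (b + c) = F b * F c
  inj : Function.Injective F
  conj : ∀ b, h * F b = F (t * b) * h
  gen : ∀ u : H1 S, ∃ b, ∃ i : ℕ, u = F b * h ^ i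
  comm : ∀ m, ∃ b, F b = ⟨(TH S S.g - 1) * m, 1⟩
  unit : ∀ k, A k * ev (S.i k) PA = 1
  pow : ∀ s : ℕ, ev (S.i (S.g ^ s)) PB = ev (S.i (S.g ^ s)) PA * t ^ s

lemma mk_b_comm (b c : N × R) : Commute (⟨b, 1⟩ : G1 S) ⟨c, 1⟩ := by
  show (_ : G1 S) * _ = _ * _
  rw [← add_eq, ← add_eq, add_comm]

lemma mk_k_mul (k l : K) : (⟨0, k⟩ : G1 S) * ⟨0, l⟩ = ⟨0, k * l⟩ := by
  rw [mk_mul_mk]; simp

lemma mk_k_comm (k l : K) : Commute (⟨0, k⟩ : G1 S) ⟨0, l⟩ := by
  show (_ : G1 S) * _ = _ * _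
  rw [mk_k_mul, mk_k_mul, mul_comm]

lemma k_hom {L K : Type} [CommGroup K] [CommRing L] {T : K →* L} (x y : Aff T)
    (w : FreeGroup (Fin 2)) :
    (FreeGroup.lift ![x, y] w).k = FreeGroup.lift ![x.k, y.k] w := by
  induction w using FreeGroup.induction_on with
  | C1 => simp
  | of i => fin_cases i <;> simp
  | inv_of i ih => rw [map_inv, map_inv, inv_k, ih]
  | mul a b iha ihb => rw [map_mul, map_mul, mul_k, iha, ihb]

lemma extract [Finite N] [Finite R] [Finite K] (f : G1 S ≃ H1 S) (w : FreeGroup (Fin 2))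
    (hw : ∀ x y : G1 S, f.symm (f x * f y) = FreeGroup.lift ![x, y] w) : Nonempty (Core S) := by
  have hw' : ∀ x y : G1 S, f x * f y = f (FreeGroup.lift ![x, y] w) := by
    intro x y; rw [← hw, Equiv.apply_symm_apply]
  -- normalisation
  have h11 : ∀ v : FreeGroup (Fin 2), FreeGroup.lift ![(1 : G1 S), 1] v = 1 := by
    intro v
    induction v using FreeGroup.induction_on with
    | C1 => simp
    | of i => fin_cases i <;> simp
    | inv_of i ih => rw [map_inv, ih, inv_one]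
    | mul a b iha ihb => rw [map_mul, iha, ihb, one_mul]
  have f1 : f 1 = 1 := by
    have := hw' 1 1
    rw [h11] at this
    exact mul_eq_left.1 this
  have wl : ∀ x : G1 S, FreeGroup.lift ![x, 1] w = x := by
    intro x
    have := hw' x 1
    rw [f1, mul_one] at this
    exact (f.injective this).symm
  have wr : ∀ x : G1 S, FreeGroup.lift ![1, x] w = x := by
    intro x
    have := hw' 1 x
    rw [f1, one_mul] at this
    exact (f.injective this).symm
  have fc : ∀ x y : G1 S, Commute x y → f (x * y) = f x * f y := by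
    intro x y hxy
    rw [hw', lift_comm hxy, wl, wr]
  -- k component of the word
  have wk : ∀ x y : G1 S, (FreeGroup.lift ![x, y] w).k = x.k * y.k := by
    intro x y
    rw [k_hom]
    have h1 := k_hom (⟨0, x.k⟩ : G1 S) ⟨0, y.k⟩ w
    have h2 : FreeGroup.lift ![(⟨0, x.k⟩ : G1 S), ⟨0, y.k⟩] w = ⟨0, x.k⟩ * ⟨0, y.k⟩ := by
      rw [lift_comm (mk_k_comm S _ _), wl, wr]
    rw [h2] at h1
    exact h1.symm
  -- the polynomials
  have hM : 0 < Nat.card K := Nat.card_pos
  have hK : ∀ k : K, k ^ Nat.card K = 1 := fun k => pow_card_eq_one'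
  obtain ⟨PA, eA, hA⟩ := word_poly (T := S.i) (Nat.card K) hM hK ![0, 1] ![1, 0] w
  obtain ⟨PB, eB, hB⟩ := word_poly (T := S.i) (Nat.card K) hM hK ![1, 0] ![0, 1] w
  have wA : ∀ k b, FreeGroup.lift ![(⟨b, 1⟩ : G1 S), ⟨0, k⟩] w = ⟨ev (S.i k) PA * b, k⟩ := by
    intro k b
    have h1 := hA k b
    have h2 : (fun i => (⟨ev (S.i k) ((![1, 0] : Fin 2 → ℤ[X]) i) * b,
        k ^ (![0, 1] : Fin 2 → ℕ) i⟩ : G1 S)) = ![(⟨b, 1⟩ : G1 S), ⟨0, k⟩] := by
      funext i
      fin_cases i
      · show (⟨ev (S.i k) 1 * b, k ^ 0⟩ : G1 S) = ⟨b, 1⟩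
        simp
      · show (⟨ev (S.i k) 0 * b, k ^ 1⟩ : G1 S) = ⟨0, k⟩
        simp
    rw [h2] at h1
    refine Aff.ext ?_ ?_
    · rw [h1]
    · rw [wk]; simp
  have wB : ∀ k b, FreeGroup.lift ![(⟨0, k⟩ : G1 S), ⟨b, 1⟩] w = ⟨ev (S.i k) PB * b, k⟩ := by
    intro k b
    have h1 := hB k b
    have h2 : (fun i => (⟨ev (S.i k) ((![0, 1] : Fin 2 → ℤ[X]) i) * b,
        k ^ (![1, 0] : Fin 2 → ℕ) i⟩ : G1 S)) = ![(⟨0, k⟩ : G1 S), ⟨b, 1⟩] := by
      funext i
      fin_cases i
      · show (⟨ev (S.i k) 0 * b, k ^ 1⟩ : G1 S) = ⟨0, k⟩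
        simp
      · show (⟨ev (S.i k) 1 * b, k ^ 0⟩ : G1 S) = ⟨b, 1⟩
        simp
    rw [h2] at h1
    refine Aff.ext ?_ ?_
    · rw [h1]
    · rw [wk]; simp
  -- F and h
  set F : N × R → H1 S := fun b => f ⟨b, 1⟩ with hF
  set h : K → H1 S := fun k => f ⟨0, k⟩ with hh
  have Fadd : ∀ b c, F (b + c) = F b * F c := by
    intro b c
    show f ⟨b + c, 1⟩ = _
    rw [add_eq, fc _ _ (mk_b_comm S b c)]
  have Finj : Function.Injective F := by
    intro b c hbc
    have := f.injective hbc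
    exact congrArg Aff.a this
  have hmul : ∀ k l, h (k * l) = h k * h l := by
    intro k l
    show f ⟨0, k * l⟩ = _
    rw [← mk_k_mul, fc _ _ (mk_k_comm S k l)]
  have h1 : h 1 = 1 := f1
  have hpow : ∀ k, ∀ n : ℕ, h (k ^ n) = h k ^ n := by
    intro k n
    induction n with
    | zero => simpa using h1
    | succ n ih => rw [pow_succ, hmul, ih, pow_succ]
  have eqA : ∀ k b, F b * h k = f ⟨ev (S.i k) PA * b, k⟩ := by
    intro k b
    rw [← wA]; exact hw' _ _
  have eqB : ∀ k b, h k * F b = f ⟨ev (S.i k) PB * b, k⟩ := by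
    intro k b
    rw [← wB]; exact hw' _ _
  -- units
  have hunit : ∀ k, ∃ A, A * ev (S.i k) PA = 1 := by
    intro k
    have hinj : Function.Injective (fun b : N × R => ev (S.i k) PA * b) := by
      intro b c hbc
      have h1 : F b * h k = F c * h k := by
        rw [eqA, eqA]
        have hbc' : ev (S.i k) PA * b = ev (S.i k) PA * c := hbc
        rw [hbc']
      exact Finj (mul_right_cancel h1)
    obtain ⟨A, hA⟩ := (Finite.surjective_of_injective hinj) 1
    exact ⟨A, by rw [mul_comm]; exact hA⟩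
  choose A hA using hunit
  have hA' : ∀ k, ev (S.i k) PA * A k = 1 := fun k => by rw [mul_comm]; exact hA k
  have conj : ∀ k b, h k * F b = F (A k * ev (S.i k) PB * b) * h k := by
    intro k b
    rw [eqB, eqA]
    have : ev (S.i k) PA * (A k * ev (S.i k) PB * b) = ev (S.i k) PB * b := by
      linear_combination (ev (S.i k) PB * b) * hA' k
    rw [this]
  have all : ∀ c k, f ⟨c, k⟩ = F (A k * c) * h k := by
    intro c k
    rw [eqA]
    have : ev (S.i k) PA * (A k * c) = c := by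
      linear_combination c * hA' k
    rw [this]
  set t : N × R := A S.g * ev (S.i S.g) PB with ht
  have hconjpow : ∀ s : ℕ, ∀ b, h (S.g ^ s) * F b = F (t ^ s * b) * h (S.g ^ s) := by
    intro s
    induction s with
    | zero => intro b; rw [pow_zero, pow_zero, h1, one_mul, mul_one, one_mul]
    | succ s ih =>
      intro b
      have e0 : t ^ (s + 1) * b = t ^ s * (t * b) := by ring
      have e1 : h S.g * F b = F (t * b) * h S.g := conj S.g b
      rw [e0, pow_succ, hmul, mul_assoc, e1, ← mul_assoc, ih, mul_assoc]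
  have tau : ∀ s : ℕ, A (S.g ^ s) * ev (S.i (S.g ^ s)) PB = t ^ s := by
    intro s
    have h1 := hconjpow s 1
    rw [conj] at h1
    have h2 := Finj (mul_right_cancel h1)
    rw [mul_one, mul_one] at h2
    exact h2
  refine ⟨⟨F, h S.g, t, PA, PB, A, Fadd, Finj, conj S.g, ?_, ?_, hA, ?_⟩⟩
  · intro u
    obtain ⟨x, rfl⟩ := f.surjective u
    obtain ⟨i, hi⟩ := S.gen x.k
    refine ⟨A x.k * x.a, i, ?_⟩
    rw [← hpow, ← hi, ← all]
  · intro m
    -- commutator
    set x := f.symm (⟨0, S.g⟩ : H1 S) with hx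
    set y := f.symm (⟨m, 1⟩ : H1 S) with hy
    have hc := comm_eq (⟨0, S.g⟩ : H1 S) ⟨m, 1⟩
    have hfx : f x = ⟨0, S.g⟩ := by rw [hx, Equiv.apply_symm_apply]
    have hfy : f y = ⟨m, 1⟩ := by rw [hy, Equiv.apply_symm_apply]
    obtain ⟨P, hP⟩ : ∃ P, P = FreeGroup.lift ![x, y] w := ⟨_, rfl⟩
    obtain ⟨Q, hQ⟩ : ∃ Q, Q = FreeGroup.lift ![y, x] w := ⟨_, rfl⟩
    have e1 : (⟨0, S.g⟩ : H1 S) * ⟨m, 1⟩ = f P := by rw [hP, ← hfx, ← hfy, hw']
    have e2 : (⟨m, 1⟩ : H1 S) * ⟨0, S.g⟩ = f Q := by rw [hQ, ← hfx, ← hfy, hw']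
    have ek : P.k = Q.k := by rw [hP, hQ, wk, wk, mul_comm]
    have e3 : f P = F (A P.k * P.a) * h P.k := all P.a P.k
    have e4 : f Q = F (A Q.k * Q.a) * h Q.k := all Q.a Q.k
    have e5 : F (A P.k * P.a - A Q.k * Q.a) * F (A Q.k * Q.a) = F (A P.k * P.a) := by
      rw [← Fadd, sub_add_cancel]
    refine ⟨A P.k * P.a - A Q.k * Q.a, ?_⟩
    rw [e1, e2, e3, e4, ek] at hc
    rw [ek] at e5
    have e6 : F (A Q.k * P.a) * h Q.k * (F (A Q.k * Q.a) * h Q.k)⁻¹
        = F (A Q.k * P.a - A Q.k * Q.a) := by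
      rw [← e5]; group
    rw [e6] at hc
    rw [ek, hc]
    refine Aff.ext ?_ rfl
    show (TH S S.g - 1) * m - (TH S 1 - 1) * 0 = _
    simp
  · intro s
    rw [← tau s]
    linear_combination (-ev (S.i (S.g ^ s)) PB) * hA' (S.g ^ s)

end extract

end Pool.Agent.Helper313.Cube
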