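import Pool.Agent.Helper313.CubeD

set_option autoImplicit false

namespace Pool.Agent.Helper313.Cube

open Polynomial

section numth

lemma seven_dvd_pow (i n : ℕ) (h : 7 ^ n ∣ i) : (7 : ℤ) ^ (n + 1) ∣ 8 ^ i - 1 := by
  obtain ⟨m, rfl⟩ := h
  have h1 := dvd_sub_pow_of_dvd_sub (R := ℤ) (p := 7) (a := 8) (b := 1) (by norm_num) n
  have h2 : (8 : ℤ) ^ 7 ^ n - 1 ^ 7 ^ n ∣ (8 ^ 7 ^ n) ^ m - (1 ^ 7 ^ n) ^ m :=
    sub_dvd_pow_sub_pow _ _ _
  rw [one_pow, one_pow, ← pow_mul] at h2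
  rw [one_pow] at h1
  exact_mod_cast h1.trans h2

lemma lte (i n : ℕ) (h : (7 : ℤ) ^ (n + 1) ∣ 8 ^ i - 1) : 7 ^ n ∣ i := by
  have hp : Nat.Prime 7 := by norm_num
  have h1 := Int.emultiplicity_pow_sub_pow (p := 7) hp (by decide) (x := 8) (y := 1)
    (by norm_num) (by norm_num) i
  rw [one_pow] at h1
  have h2 : emultiplicity ((7 : ℕ) : ℤ) (8 - 1) = 1 := by
    have : ((8 : ℤ) - 1) = ((7 : ℕ) : ℤ) := by norm_num
    rw [this]
    exact FiniteMultiplicity.emultiplicity_self (Int.finiteMultiplicity_iff.2 ⟨by norm_num, by norm_num⟩)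
  rw [h2] at h1
  have h3 : ((n + 1 : ℕ) : ℕ∞) ≤ emultiplicity ((7 : ℕ) : ℤ) ((8 : ℤ) ^ i - 1) :=
    pow_dvd_iff_le_emultiplicity.1 (by exact_mod_cast h)
  rw [h1] at h3
  have h4 : (n : ℕ∞) ≤ emultiplicity 7 i := by
    push_cast at h3
    rw [add_comm] at h3
    exact (ENat.add_le_add_iff_left (by simp)).1 h3
  exact pow_dvd_iff_le_emultiplicity.2 h4

variable {R : Type} [CommRing R]

lemma pow7_step (p e : R) (sq : p ^ 2 = 7) (k : ℕ) : ∃ e', (1 + p ^ (k + 2) * e) ^ 7 = 1 + p ^ (k + 4) * e' := by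
  refine ⟨e + 3 * p ^ (k + 2) * e ^ 2 + 5 * p ^ (2 * k + 4) * e ^ 3 + 5 * p ^ (3 * k + 6) * e ^ 4
    + 3 * p ^ (4 * k + 8) * e ^ 5 + p ^ (5 * k + 10) * e ^ 6 + p ^ (6 * k + 10) * e ^ 7, ?_⟩
  set q := p ^ k with hq
  have e1 : p ^ (k + 2) = q * p ^ 2 := by rw [pow_add]
  have e2 : p ^ (k + 4) = q * p ^ 4 := by rw [pow_add]
  have e3 : p ^ (2 * k + 4) = q ^ 2 * p ^ 4 := by rw [hq]; ring
  have e4 : p ^ (3 * k + 6) = q ^ 3 * p ^ 6 := by rw [hq]; ring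
  have e5 : p ^ (4 * k + 8) = q ^ 4 * p ^ 8 := by rw [hq]; ring
  have e6 : p ^ (5 * k + 10) = q ^ 5 * p ^ 10 := by rw [hq]; ring
  have e7 : p ^ (6 * k + 10) = q ^ 6 * p ^ 10 := by rw [hq]; ring
  rw [e1, e2, e3, e4, e5, e6, e7]
  linear_combination (-(q * p ^ 2 * e + 3 * q ^ 2 * p ^ 4 * e ^ 2 + 5 * q ^ 3 * p ^ 6 * e ^ 3
    + 5 * q ^ 4 * p ^ 8 * e ^ 4 + 3 * q ^ 5 * p ^ 10 * e ^ 5 + q ^ 6 * p ^ 12 * e ^ 6)) * sq

lemma pow_one_of_dvd (p : R) (sq : p ^ 2 = 7) (nine : p ^ 9 = 0) (i : ℕ) (h : 7 ^ 4 ∣ i) :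
    (1 + p) ^ i = 1 := by
  obtain ⟨m, rfl⟩ := h
  obtain ⟨e1, h1⟩ := expand7 p sq 7 (dvd_refl 7)
  obtain ⟨e2, h2⟩ := pow7_step p e1 sq 1
  obtain ⟨e3, h3⟩ := pow7_step p e2 sq 3
  obtain ⟨e4, h4⟩ := pow7_step p e3 sq 5
  have : (1 + p) ^ (7 ^ 4 * m) = ((((((1 + p) ^ 7) ^ 7) ^ 7) ^ 7)) ^ m := by
    rw [← pow_mul, ← pow_mul, ← pow_mul, ← pow_mul]
    congr 1; ring
  rw [this, h1, h2, h3, h4, nine, zero_mul, add_zero, one_pow]

end numth

section core1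
variable {N R K : Type} [CommRing N] [CommRing R] [CommGroup K] {S : Setup N R K} (C : Core S)

lemma i_fst (n : ℕ) : (S.i (S.g ^ n)).1 = (8 : N) ^ n := by rw [i_pow]
lemma i_snd (n : ℕ) : (S.i (S.g ^ n)).2 = (1 + S.p) ^ n := by rw [i_pow]
lemma T_fst (n : ℕ) : (TH S (S.g ^ n)).1 = (8 : N) ^ n := by rw [TH_one, i_pow]

/-- integers that vanish in `N` -/
lemma natsN (S : Setup N R K) (n : ℤ) (h : (7 : ℤ) ^ 10 ∣ n) : (n : N) = 0 := by
  obtain ⟨d, rfl⟩ := h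
  rw [Int.cast_mul, Int.cast_pow, Int.cast_ofNat, S.N1, zero_mul]

lemma c_pow (b : N × R) : ∃ i : ℕ, (C.F b).k = S.g ^ i ∧ 7 ^ 8 ∣ i := by
  obtain ⟨i, hi⟩ := S.gen (C.F b).k
  refine ⟨i, hi, lte i 8 ?_⟩
  obtain ⟨b', hb'⟩ := C.comm (1, 0)
  have h1 : C.F b' * C.F b = C.F b * C.F b' := by rw [← C.add, ← C.add, add_comm]
  have h2 := congrArg Aff.a h1
  rw [hb'] at h2
  simp only [mul_a, map_one, one_mul] at h2
  have h3 := congrArg Prod.fst h2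
  simp only [Prod.fst_add, Prod.fst_mul, Prod.fst_sub, Prod.fst_one] at h3
  rw [hi, T_fst] at h3
  have h4 : (TH S S.g).1 = 8 := by
    have := T_fst (S := S) 1
    rw [pow_one, pow_one] at this; exact this
  rw [h4] at h3
  have h5 : (((8 ^ i - 1) * 7 : ℤ) : N) = 0 := by
    push_cast
    linear_combination (-1 : N) * h3
  have h6 := S.N0 _ h5
  rw [show (7 : ℤ) ^ 10 = 7 ^ 9 * 7 by norm_num] at h6
  exact (mul_dvd_mul_iff_right (by norm_num)).1 h6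

lemma T_c_snd (b : N × R) : (TH S (C.F b).k).2 = 1 := by
  obtain ⟨i, hi, h7⟩ := c_pow C b
  have h4 : 7 ^ 4 ∣ i := (pow_dvd_pow 7 (by norm_num)).trans h7
  rw [TH_two, hi, i_snd, pow_one_of_dvd S.p S.sq S.nine i h4]
  ring

lemma T_c_fst (b : N × R) : ∃ e : ℤ, (TH S (C.F b).k).1 = 1 + 7 ^ 9 * e := by
  obtain ⟨i, hi, h7⟩ := c_pow C b
  obtain ⟨e, he⟩ := seven_dvd_pow i 8 h7
  refine ⟨e, ?_⟩
  rw [hi, T_fst]
  have := congrArg (Int.cast : ℤ → N) he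
  push_cast at this
  linear_combination this

lemma F_zero : C.F 0 = 1 := by
  have := C.add 0 0
  rw [add_zero] at this
  exact mul_eq_left.1 this.symm

lemma c_add (b b' : N × R) : (C.F (b + b')).k = (C.F b).k * (C.F b').k := by
  rw [C.add]; rfl

lemma gR_add (b b' : N × R) : (C.F (b + b')).a.2 = (C.F b).a.2 + (C.F b').a.2 := by
  rw [C.add]
  show ((C.F b).a + TH S (C.F b).k * (C.F b').a).2 = _
  rw [Prod.snd_add, Prod.snd_mul, T_c_snd, one_mul]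

/-- the additive map on the second component -/
def gR : N × R →+ R where
  toFun b := (C.F b).a.2
  map_zero' := by rw [F_zero]; rfl
  map_add' := gR_add C

lemma gR_apply (b : N × R) : gR C b = (C.F b).a.2 := rfl

lemma gN_add (b b' : N × R) : ∃ e : ℤ, (C.F (b + b')).a.1 = (C.F b).a.1 + (1 + 7 ^ 9 * e) * (C.F b').a.1 := by
  obtain ⟨e, he⟩ := T_c_fst C b
  refine ⟨e, ?_⟩
  rw [C.add]
  show ((C.F b).a + TH S (C.F b).k * (C.F b').a).1 = _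
  rw [Prod.fst_add, Prod.fst_mul, he]

lemma gN_nsmul (b : N × R) (n : ℕ) : ∃ e : ℤ, (C.F (n • b)).a.1 = (n + 7 ^ 9 * e) * (C.F b).a.1 := by
  induction n with
  | zero => exact ⟨0, by rw [zero_smul, F_zero]; simp⟩
  | succ n ih =>
    obtain ⟨e, he⟩ := ih
    obtain ⟨e', he'⟩ := gN_add C (n • b) b
    refine ⟨e + e', ?_⟩
    rw [succ_nsmul, he', he]; push_cast; ring

lemma c_nsmul (b : N × R) (n : ℕ) : (C.F (n • b)).k = (C.F b).k ^ n := by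
  induction n with
  | zero => rw [zero_smul, F_zero]; simp
  | succ n ih => rw [succ_nsmul, c_add, ih, pow_succ]

lemma conj_k (b : N × R) : (C.F (C.t * b)).k = (C.F b).k := by
  have := congrArg Aff.k (C.conj b)
  rw [mul_k, mul_k, mul_comm] at this
  exact (mul_right_cancel this).symm

lemma conj_R (b : N × R) : gR C (C.t * b) = (TH S C.h.k).2 * gR C b := by
  have h1 := congrArg Aff.a (C.conj b)
  rw [mul_a, mul_a] at h1
  have h2 := congrArg Prod.snd h1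
  rw [Prod.snd_add, Prod.snd_add, Prod.snd_mul, Prod.snd_mul, T_c_snd] at h2
  rw [gR_apply, gR_apply]
  linear_combination -h2

lemma conj_N (b : N × R) : ∃ e : ℤ, (C.F (C.t * b)).a.1 = (TH S C.h.k).1 * (C.F b).a.1 + 7 ^ 9 * e * C.h.a.1 := by
  obtain ⟨e, he⟩ := T_c_fst C (C.t * b)
  refine ⟨-e, ?_⟩
  have h1 := congrArg Aff.a (C.conj b)
  rw [mul_a, mul_a] at h1
  have h2 := congrArg Prod.fst h1
  rw [Prod.fst_add, Prod.fst_add, Prod.fst_mul, Prod.fst_mul, he] at h2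
  push_cast
  linear_combination -h2

lemma K_exp (S : Setup N R K) (k : K) : k ^ 7 ^ 9 = 1 := by
  apply S.inj
  rw [map_one]
  obtain ⟨n, rfl⟩ := S.gen k
  rw [← pow_mul, i_pow]
  refine Prod.ext ?_ ?_
  · show (8 : N) ^ (n * 7 ^ 9) = 1
    have h1 := natsN S _ (seven_dvd_pow (n * 7 ^ 9) 9 (dvd_mul_left _ _))
    push_cast at h1
    linear_combination h1
  · show (1 + S.p) ^ (n * 7 ^ 9) = 1
    exact pow_one_of_dvd S.p S.sq S.nine _ (dvd_mul_of_dvd_right (pow_dvd_pow 7 (by norm_num)) _)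

lemma g0 (y : N) (hy : (C.F (1, 0)).a.1 = 7 * y) : False := by
  have h1 : C.F ((7 ^ 9) • ((1, 0) : N × R)) = 1 := by
    refine Aff.ext (Prod.ext ?_ ?_) ?_
    · obtain ⟨e, he⟩ := gN_nsmul C (1, 0) (7 ^ 9)
      rw [he, hy]
      show _ = (0 : N)
      push_cast
      linear_combination ((1 + e) * y) * S.N1
    · have := map_nsmul (gR C) (7 ^ 9) ((1, 0) : N × R)
      rw [gR_apply] at this
      rw [this, nsmul_eq_mul]
      show _ = (0 : R)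
      have h7 : ((7 ^ 9 : ℕ) : R) = 0 := by
        rw [Nat.cast_pow, Nat.cast_ofNat, ← S.sq]
        linear_combination S.p ^ 9 * S.nine
      rw [h7, zero_mul]
    · rw [c_nsmul, K_exp S]; rfl
  rw [← F_zero C] at h1
  have h2 := C.inj h1
  have h3 := congrArg Prod.fst h2
  have h4 : ((7 ^ 9 : ℤ) : N) = 0 := by
    have : ((7 ^ 9) • ((1, 0) : N × R)).1 = ((7 ^ 9 : ℤ) : N) := by
      simp
    rw [this] at h3
    exact h3
  have h5 := S.N0 _ h4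
  norm_num at h5

end core1

end Pool.Agent.Helper313.Cube
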