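import Pool.Agent.Helper313.CubeE

set_option autoImplicit false

namespace Pool.Agent.Helper313.Cube

open Polynomial

lemma pow8_mod (x : ℕ) : ∃ w : ℤ, (8 : ℤ) ^ x = 1 + 7 * x + 49 * w := by
  induction x with
  | zero => exact ⟨0, by simp⟩
  | succ x ih =>
    obtain ⟨w, hw⟩ := ih
    refine ⟨8 * w + x, ?_⟩
    rw [pow_succ, hw]; push_cast; ring

lemma xy_pow {R : Type} [CommRing R] (p : R) (sq : p ^ 2 = 7) (j : ℕ) :
    ∃ x y m m' : ℤ, (1 + p) ^ j = x + y * p ∧ x = 1 + 7 * m ∧ y = j + 7 * m' := by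
  induction j with
  | zero => exact ⟨1, 0, 0, 0, by simp, by simp, by simp⟩
  | succ j ih =>
    obtain ⟨x, y, m, m', h1, h2, h3⟩ := ih
    refine ⟨x + 7 * y, x + y, m + y, m + m', ?_, ?_, ?_⟩
    · rw [pow_succ, h1]; push_cast
      linear_combination (y : R) * sq
    · rw [h2]; ring
    · rw [h2, h3]; push_cast; ring

section core2
variable {N R K : Type} [CommRing N] [CommRing R] [CommGroup K] {S : Setup N R K} (C : Core S)

lemma T_mod (k : K) : ∃ e, (TH S k).2 = 1 + S.p * e := by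
  obtain ⟨x, hx⟩ := i_two S k
  obtain ⟨e, he⟩ := (close_T S).h2 k
  exact ⟨x + S.p ^ 6 * e, by rw [he, hx]; ring⟩

lemma seven_tau (j t : ℕ) (hj : C.h.k = S.g ^ j) (ht : C.t.1 = t) : (7 : ℤ) ^ 9 ∣ 8 ^ j - t := by
  obtain ⟨e, he⟩ := gN_nsmul C (1, 0) t
  obtain ⟨e', he'⟩ := conj_N C (1, 0)
  have h0 : (t • ((1, 0) : N × R)) = C.t * (1, 0) := by
    refine Prod.ext ?_ ?_
    · rw [Prod.fst_mul, ht]; simp
    · simp
  rw [h0, he'] at he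
  obtain ⟨y, hy⟩ := S.Ns (C.F (1, 0)).a.1
  obtain ⟨a, ha⟩ := S.Ns C.h.a.1
  rw [hj, T_fst, hy, ha] at he
  have h1 : (((8 ^ j - t) * y - 7 ^ 9 * (e * y - e' * a) : ℤ) : N) = 0 := by
    push_cast
    linear_combination he
  have h2 := S.N0 _ h1
  have h3 : (7 : ℤ) ^ 9 ∣ (8 ^ j - t) * y := by
    have h4 : (7 : ℤ) ^ 9 ∣ (8 ^ j - t) * y - 7 ^ 9 * (e * y - e' * a) :=
      (pow_dvd_pow 7 (by norm_num)).trans h2
    have h5 := dvd_add h4 (dvd_mul_right ((7 : ℤ) ^ 9) (e * y - e' * a))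
    simpa using h5
  have hcop : IsCoprime ((7 : ℤ) ^ 9) y := by
    apply IsCoprime.pow_left
    rw [Prime.coprime_iff_not_dvd (by norm_num)]
    rintro ⟨d, hd⟩
    refine g0 C d ?_
    rw [hy]
    have := congrArg (Int.cast : ℤ → N) hd
    push_cast at this
    exact this
  exact hcop.dvd_of_dvd_mul_right h3

lemma tau_R (j t : ℕ) (hj : C.h.k = S.g ^ j) (ht : C.t.1 = t) :
    ∃ e, C.t.2 = (1 + S.p) ^ j + S.p ^ 8 * e := by
  have h7 := seven_tau C j t hj ht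
  have hW : ∀ s, s ≤ 7 → (7 : ℤ) ^ 9 ∣ (C.PB - X ^ j * C.PA).eval (8 ^ s) := by
    intro s _
    have h1 := congrArg Prod.fst (C.pow s)
    rw [Prod.fst_mul, ev_fst, ev_fst, i_fst, show (C.t ^ s).1 = C.t.1 ^ s from rfl, ht] at h1
    have h8 : (8 : N) ^ s = ((8 ^ s : ℤ) : N) := by push_cast; rfl
    rw [h8, ev_cast, ev_cast] at h1
    have h2 : ((C.PB.eval (8 ^ s) - C.PA.eval (8 ^ s) * t ^ s : ℤ) : N) = 0 := by
      rw [Int.cast_sub, h1]; push_cast; ring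
    have h3 : (7 : ℤ) ^ 9 ∣ C.PB.eval (8 ^ s) - C.PA.eval (8 ^ s) * t ^ s :=
      (pow_dvd_pow 7 (by norm_num)).trans (S.N0 _ h2)
    have h4 : (7 : ℤ) ^ 9 ∣ (8 ^ j) ^ s - (t : ℤ) ^ s := h7.trans (sub_dvd_pow_sub_pow _ _ _)
    rw [eval_sub, eval_mul, eval_pow, eval_X]
    have h5 : C.PB.eval (8 ^ s) - (8 ^ s) ^ j * C.PA.eval (8 ^ s)
        = (C.PB.eval (8 ^ s) - C.PA.eval (8 ^ s) * t ^ s)
          - C.PA.eval (8 ^ s) * ((8 ^ j) ^ s - (t : ℤ) ^ s) := by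
      rw [← pow_mul, ← pow_mul, mul_comm s j]; ring
    rw [h5]
    exact dvd_sub h3 (dvd_mul_of_dvd_right h4 _)
  obtain ⟨e, he⟩ := newton S.p S.sq S.nine _ hW
  rw [← ev_aeval, ev_sub, ev_mul, ev_Xpow] at he
  have h1 := congrArg Prod.snd (C.pow 1)
  rw [Prod.snd_mul, ev_snd, ev_snd, i_snd, pow_one, pow_one] at h1
  have h2 := congrArg Prod.snd (C.unit (S.g ^ 1))
  rw [Prod.snd_mul, ev_snd, i_snd, pow_one (1 + S.p)] at h2
  have h3 : (C.A (S.g ^ 1)).2 * ev (1 + S.p) C.PA = 1 := h2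
  refine ⟨(C.A (S.g ^ 1)).2 * e, ?_⟩
  linear_combination (C.A (S.g ^ 1)).2 * he + (C.A (S.g ^ 1)).2 * (-h1) +
    ((1 + S.p) ^ j - C.t.2) * h3

lemma mem_form (u : H1 S) (j : ℕ) (hj : C.h.k = S.g ^ j) : ∃ b, ∃ i i' : ℕ, 7 ^ 8 ∣ i' ∧
    u = C.F b * C.h ^ i ∧ u.k = S.g ^ (i' + j * i) := by
  obtain ⟨b, i, hu⟩ := C.gen u
  obtain ⟨i', hi', h7⟩ := c_pow C b
  refine ⟨b, i, i', h7, hu, ?_⟩
  have hk : ∀ n : ℕ, (C.h ^ n).k = C.h.k ^ n := by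
    intro n
    induction n with
    | zero => rw [pow_zero, pow_zero]; rfl
    | succ n ih => rw [pow_succ, mul_k, ih, pow_succ]
  rw [hu, mul_k, hk, hi', hj, pow_add, pow_mul]

lemma j_unit (j : ℕ) (hj : C.h.k = S.g ^ j) : ¬ (7 : ℤ) ∣ j := by
  intro h7
  obtain ⟨b, i, i', hi', -, hk⟩ := mem_form C ⟨0, S.g⟩ j hj
  have h1 := congrArg (fun k => (S.i k).1) hk
  have h2 : (8 : N) = 8 ^ (i' + j * i) := by
    have e1 : (S.i S.g).1 = 8 := by rw [S.ig]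
    have e2 := i_fst (S := S) (i' + j * i)
    rw [← e2, ← e1]
    exact h1
  have h3 : ((8 ^ (i' + j * i) - 8 : ℤ) : N) = 0 := by
    push_cast
    rw [← h2, sub_self]
  have h4 : (49 : ℤ) ∣ 8 ^ (i' + j * i) - 8 :=
    (by norm_num : (49 : ℤ) ∣ 7 ^ 10).trans (S.N0 _ h3)
  obtain ⟨w, hw⟩ := pow8_mod (i' + j * i)
  rw [hw] at h4
  obtain ⟨a, ha⟩ := h7
  obtain ⟨c, hc⟩ : (7 : ℤ) ∣ i' := by
    have : 7 ∣ i' := (dvd_pow_self 7 (by norm_num)).trans hi'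
    exact_mod_cast this
  obtain ⟨d, hd⟩ := h4
  push_cast at hd
  rw [ha, hc] at hd
  have h5 : (7 : ℤ) * (c + a * i) * 7 + 49 * w - 7 = 49 * d := by linarith
  omega

lemma h_pow (n : ℕ) : ∃ e, (C.h ^ n).a.2 = n * C.h.a.2 + S.p * e := by
  induction n with
  | zero => exact ⟨0, by simp⟩
  | succ n ih =>
    obtain ⟨e, he⟩ := ih
    obtain ⟨e', he'⟩ := T_mod (S := S) (C.h ^ n).k
    refine ⟨e + e' * C.h.a.2, ?_⟩
    rw [pow_succ, mul_a, Prod.snd_add, Prod.snd_mul, he, he']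
    push_cast; ring

lemma exists_b (j : ℕ) (hj : C.h.k = S.g ^ j) (h7 : ¬ (7 : ℤ) ∣ j) :
    ∃ b e, gR C b = 1 + S.p * e := by
  obtain ⟨b, i, i', hi', hu, hk⟩ := mem_form C ⟨(0, 1), 1⟩ j hj
  refine ⟨b, ?_⟩
  have hi'7 : 7 ∣ i' := (dvd_pow_self 7 (by norm_num)).trans hi'
  have h1 : (7 : ℕ) ∣ i' + j * i := by
    have h1 := congrArg (fun k => (S.i k).1) hk
    have h2 : (1 : N) = 8 ^ (i' + j * i) := by
      have e2 := i_fst (S := S) (i' + j * i)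
      have e3 : (S.i (1 : K)).1 = 1 := by rw [map_one]; rfl
      rw [← e2, ← e3]
      exact h1
    have h3 : ((8 ^ (i' + j * i) - 1 : ℤ) : N) = 0 := by
      push_cast
      rw [← h2, sub_self]
    exact (dvd_pow_self 7 (by norm_num)).trans (lte _ 9 (S.N0 _ h3))
  have h2 : 7 ∣ j * i := (Nat.dvd_add_right hi'7).1 h1
  have h3 : 7 ∣ i := by
    rcases (Nat.Prime.dvd_mul (by norm_num)).1 h2 with h | h
    · exact absurd (by exact_mod_cast h) h7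
    · exact h
  obtain ⟨c, hc⟩ := h3
  obtain ⟨e, he⟩ := h_pow C i
  have h4 := congrArg (fun u : H1 S => u.a.2) hu
  have h5 : (1 : R) = (C.F b).a.2 + (TH S (C.F b).k).2 * (C.h ^ i).a.2 := h4
  rw [T_c_snd, one_mul, he, hc] at h5
  refine ⟨-(S.p * c * C.h.a.2) - e, ?_⟩
  rw [gR_apply]
  push_cast at h5
  linear_combination (-1 : R) * h5 + (c * C.h.a.2) * S.sq

lemma S_form (j : ℕ) : ∃ e, (TH S (S.g ^ j)).2 = 1 + j * S.p + S.p ^ 2 * e := by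
  obtain ⟨Cc, e, -, he⟩ := expand S.p j
  obtain ⟨e', he'⟩ := (close_T S).h2 (S.g ^ j)
  refine ⟨Cc + S.p * e + S.p ^ 5 * e', ?_⟩
  rw [he', i_snd, he]; ring

lemma gR_fst (j t : ℕ) (hj : C.h.k = S.g ^ j) (ht : C.t.1 = t) (h7 : ¬ (7 : ℤ) ∣ j) (n : N) :
    ∃ e, gR C (n, 0) = S.p * e := by
  obtain ⟨e1, he1⟩ := S_form (S := S) j
  have h1 := conj_R C (n, 0)
  have h2 : C.t * ((n, 0) : N × R) = t • (n, 0) := by
    refine Prod.ext ?_ ?_
    · rw [Prod.fst_mul, ht]; simp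
    · simp
  rw [h2, map_nsmul, nsmul_eq_mul, hj, he1] at h1
  obtain ⟨w, hw⟩ : ∃ w : ℤ, (t : ℤ) = 1 + 7 * w := by
    have ha : (7 : ℤ) ∣ 8 ^ j - t := (dvd_pow_self 7 (by norm_num)).trans (seven_tau C j t hj ht)
    have hb : (7 : ℤ) ∣ 8 ^ j - 1 := by
      simpa using sub_dvd_pow_sub_pow (8 : ℤ) 1 j
    obtain ⟨a, ha⟩ := ha
    obtain ⟨b, hb⟩ := hb
    exact ⟨b - a, by linarith⟩
  have hwR : (t : R) = 1 + S.p ^ 2 * w := by
    have := congrArg (Int.cast : ℤ → R) hw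
    push_cast at this
    rw [S.sq]; exact this
  rw [hwR] at h1
  obtain ⟨m, y, hm⟩ := S.res (gR C (n, 0))
  have h3 : S.p ^ 8 * ((j * m : ℤ) : R) = 0 := by
    push_cast
    rw [hm] at h1
    linear_combination (-S.p ^ 7) * h1 + (w * (m + S.p * y) - e1 * (m + S.p * y) - j * y) * S.nine
  have h4 := S.eight _ h3
  have h5 : (7 : ℤ) ∣ m := by
    rcases (Prime.dvd_mul (by norm_num)).1 h4 with h | h
    · exact absurd h h7
    · exact h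
  obtain ⟨m', rfl⟩ := h5
  refine ⟨S.p * m' + y, ?_⟩
  rw [hm]; push_cast
  linear_combination (-(m' : R)) * S.sq

lemma exists_r (j t : ℕ) (hj : C.h.k = S.g ^ j) (ht : C.t.1 = t) (h7 : ¬ (7 : ℤ) ∣ j) :
    ∃ r e, gR C (0, r) = 1 + S.p * e := by
  obtain ⟨b, e, he⟩ := exists_b C j hj h7
  obtain ⟨e', he'⟩ := gR_fst C j t hj ht h7 b.1
  refine ⟨b.2, e - e', ?_⟩
  have : b = (b.1, 0) + (0, b.2) := by simp
  rw [this, map_add, he'] at he
  linear_combination he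

lemma S_form2 (j : ℕ) : ∃ e, (TH S (S.g ^ j)).2 = (1 + S.p) ^ j + 6 * j * S.p ^ 7 + S.p ^ 8 * e := by
  obtain ⟨Cc, e, -, he⟩ := expand S.p j
  rw [TH_two, i_snd, he]
  obtain ⟨mu, hmu⟩ : ∃ mu : R, mu = Cc + S.p * e := ⟨_, rfl⟩
  obtain ⟨nu, hnu⟩ : ∃ nu : R, nu = j + S.p * mu := ⟨_, rfl⟩
  refine ⟨6 * mu + nu * (3 * nu - 3 * S.p * nu ^ 2 - 18 - 9 * S.p * nu + 9 * S.p ^ 2 * nu ^ 2), ?_⟩
  rw [hnu, hmu]
  ring

include C in
theorem core_false : False := by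
  obtain ⟨j, hj⟩ := S.gen C.h.k
  obtain ⟨t, ht⟩ := S.Ns C.t.1
  have h7 := j_unit C j hj
  obtain ⟨e1, he1⟩ := tau_R C j t hj ht
  obtain ⟨r, e2, he2⟩ := exists_r C j t hj ht h7
  obtain ⟨e3, he3⟩ := S_form2 (S := S) j
  obtain ⟨x, y, m, m', hx, -, hy⟩ := xy_pow S.p S.sq j
  rw [hx] at he1 he3
  have hc : ∀ z : R, gR C (0, C.t.2 * z) = (TH S C.h.k).2 * gR C (0, z) := by
    intro z
    have := conj_R C (0, z)
    have h0 : C.t * ((0, z) : N × R) = (0, C.t.2 * z) := by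
      refine Prod.ext ?_ ?_ <;> simp
    rw [h0] at this
    exact this
  rw [hj] at hc
  set s := (TH S (S.g ^ j)).2 with hs
  set τ := C.t.2 with hτ
  have q1 : τ * (τ * r) = (2 * x) • (τ * r) - (x ^ 2 - 7 * y ^ 2) • r := by
    rw [zsmul_eq_mul, zsmul_eq_mul, he1]
    push_cast
    linear_combination ((y : R) ^ 2 * r) * S.sq + (r * (2 * y * e1 + S.p ^ 7 * e1 ^ 2)) * S.nine
  have q2 : gR C (0, τ * (τ * r)) = (2 * x) • gR C (0, τ * r) - (x ^ 2 - 7 * y ^ 2) • gR C (0, r) := by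
    rw [q1, ← map_zsmul, ← map_zsmul, ← map_sub]
    congr 1
    refine Prod.ext ?_ ?_ <;> simp
  rw [hc, hc, he2] at q2
  rw [zsmul_eq_mul, zsmul_eq_mul] at q2
  push_cast at q2
  have q3 : S.p ^ 8 * ((12 * (y * j) : ℤ) : R) = 0 := by
    push_cast
    rw [he3] at q2
    linear_combination q2 - ((1 + S.p * e2) * y ^ 2) * S.sq - (12 * y * j * e2
      + (1 + S.p * e2) * (2 * y * e3 + S.p ^ 5 * (6 * j + S.p * e3) ^ 2)) * S.nine
  have q4 := S.eight _ q3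
  rw [Prime.dvd_mul (by norm_num), Prime.dvd_mul (by norm_num)] at q4
  rcases q4 with h | h | h
  · norm_num at h
  · apply h7
    rw [hy] at h
    exact (dvd_add_left (dvd_mul_right 7 m')).1 h
  · exact h7 h

end core2

end Pool.Agent.Helper313.Cube
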