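import Pool.Agent.Helper313.CubeF

set_option autoImplicit false

namespace Pool.Agent.Helper313.Cube

section concrete

/-- the element `√7` of `ℤ[√7]` -/
def p0 : ℤ√7 := ⟨0, 1⟩

abbrev RR : Type := (ℤ√7) ⧸ Ideal.span {p0 ^ 9}
abbrev NN : Type := ZMod (7 ^ 10)

def pp : RR := Ideal.Quotient.mk _ p0

lemma p0_sq : p0 ^ 2 = 7 := by
  ext <;> simp [p0, pow_two]

lemma pp_sq : pp ^ 2 = 7 := by
  rw [pp, ← map_pow, p0_sq, map_ofNat]

lemma pp_nine : pp ^ 9 = 0 := by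
  rw [pp, ← map_pow]
  exact Ideal.Quotient.eq_zero_iff_mem.2 (Ideal.mem_span_singleton_self _)

lemma pp_eight (n : ℤ) (h : pp ^ 8 * (n : RR) = 0) : (7 : ℤ) ∣ n := by
  have h1 : Ideal.Quotient.mk (Ideal.span {p0 ^ 9}) (p0 ^ 8 * (n : ℤ√7)) = 0 := by
    rw [map_mul, map_pow, map_intCast]; exact h
  rw [Ideal.Quotient.eq_zero_iff_mem, Ideal.mem_span_singleton] at h1
  obtain ⟨z, hz⟩ := h1
  have e8 : p0 ^ 8 = ((7 ^ 4 : ℤ) : ℤ√7) := by
    have : p0 ^ 8 = (p0 ^ 2) ^ 4 := by ring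
    rw [this, p0_sq]; push_cast; rfl
  have e9 : p0 ^ 9 = ((7 ^ 4 : ℤ) : ℤ√7) * p0 := by rw [pow_succ, e8]
  rw [e9, e8] at hz
  have h2 := congrArg Zsqrtd.re hz
  rw [mul_assoc] at h2
  simp [p0] at h2
  omega

lemma pp_res (x : RR) : ∃ (n : ℤ) (y : RR), x = n + pp * y := by
  obtain ⟨z, rfl⟩ := Ideal.Quotient.mk_surjective x
  refine ⟨z.re, Ideal.Quotient.mk _ (z.im : ℤ√7), ?_⟩
  have : z = (z.re : ℤ√7) + p0 * (z.im : ℤ√7) := by
    ext <;> simp [p0]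
  conv_lhs => rw [this]
  rw [map_add, map_mul, map_intCast]; rfl

lemma pp_ten : (7 : RR) ^ 5 = 0 := by
  rw [← pp_sq]; linear_combination pp * pp_nine

lemma int_val (a : ℤ) : ∃ c : Fin (7 ^ 5), ((c.val : ℕ) : RR) = (a : RR) := by
  have h0 : 0 ≤ a % (7 ^ 5 : ℤ) := Int.emod_nonneg _ (by norm_num)
  have h1 : a % (7 ^ 5 : ℤ) < 7 ^ 5 := Int.emod_lt_of_pos _ (by norm_num)
  refine ⟨⟨(a % (7 ^ 5 : ℤ)).toNat, by omega⟩, ?_⟩
  have h2 : (((a % (7 ^ 5 : ℤ)).toNat : ℕ) : ℤ) = a % (7 ^ 5 : ℤ) := Int.toNat_of_nonneg h0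
  have h3 : a = (((a % (7 ^ 5 : ℤ)).toNat : ℕ) : ℤ) + (7 : ℤ) ^ 5 * (a / 7 ^ 5) := by
    rw [h2, Int.emod_add_mul_ediv]
  show (((a % (7 ^ 5 : ℤ)).toNat : ℕ) : RR) = (a : RR)
  conv_rhs => rw [h3]
  rw [Int.cast_add, Int.cast_mul, Int.cast_pow, Int.cast_ofNat, pp_ten, zero_mul, add_zero,
    Int.cast_natCast]

instance : Finite RR := by
  apply Finite.of_surjective (fun ab : Fin (7 ^ 5) × Fin (7 ^ 5) =>
    (((ab.1.val : ℕ) : RR) + pp * ((ab.2.val : ℕ) : RR)))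
  intro x
  obtain ⟨z, rfl⟩ := Ideal.Quotient.mk_surjective x
  obtain ⟨a, ha⟩ := int_val z.re
  obtain ⟨b, hb⟩ := int_val z.im
  refine ⟨(a, b), ?_⟩
  show ((a.val : ℕ) : RR) + pp * ((b.val : ℕ) : RR) = _
  rw [ha, hb]
  have : z = (z.re : ℤ√7) + p0 * (z.im : ℤ√7) := by
    ext <;> simp [p0]
  conv_rhs => rw [this]
  rw [map_add, map_mul, map_intCast, map_intCast]; rfl

lemma isUnit_kappa : IsUnit ((8, 1 + pp) : NN × RR) := by
  rw [Prod.isUnit_iff]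
  constructor
  · have h : IsNilpotent (7 : NN) := ⟨10, by
      have := ZMod.natCast_self (7 ^ 10)
      rw [Nat.cast_pow] at this
      exact this⟩
    have := h.isUnit_one_add
    have e : (1 + 7 : NN) = 8 := by norm_num
    rwa [e] at this
  · exact IsNilpotent.isUnit_one_add ⟨9, pp_nine⟩

noncomputable def kappa : (NN × RR)ˣ := isUnit_kappa.unit

instance : NeZero (7 ^ 10 : ℕ) := ⟨by norm_num⟩

instance : Finite (NN × RR)ˣ := inferInstance

abbrev KK : Type := Subgroup.zpowers kappa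

noncomputable def theSetup : Setup NN RR KK where
  p := pp
  i := (Units.coeHom (NN × RR)).comp (Subgroup.zpowers kappa).subtype
  g := ⟨kappa, Subgroup.mem_zpowers kappa⟩
  sq := pp_sq
  nine := pp_nine
  eight := pp_eight
  res := pp_res
  N0 := by
    intro n hn
    have := (ZMod.intCast_zmod_eq_zero_iff_dvd n (7 ^ 10)).1 hn
    exact_mod_cast this
  N1 := by
    have := ZMod.natCast_self (7 ^ 10)
    rw [Nat.cast_pow] at this
    exact this
  Ns := fun x => ⟨x.val, (ZMod.natCast_zmod_val x).symm⟩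
  ig := by
    show ((kappa : (NN × RR)ˣ) : NN × RR) = _
    exact IsUnit.unit_spec _
  gen := by
    rintro ⟨k, hk⟩
    obtain ⟨n, hn⟩ := mem_powers_iff_mem_zpowers.2 hk
    exact ⟨n, Subtype.ext hn.symm⟩
  inj := by
    intro x y h
    apply Subtype.ext
    apply Units.ext
    exact h

end concrete

end Pool.Agent.Helper313.Cube
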