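import Mathlib

set_option autoImplicit false
open scoped Pointwise

namespace Pool.Agent.Helper313.PowEmb

/-- Trees describing labelled elements of the group that is being built. -/
inductive W (S : Type) : Type
  | x : S → W S
  | mul : W S → W S → W S
  | u : W S → S → S → W S
  | v : W S → S → S → W S

variable {S : Type}

/-- The semigroup label of a tree. -/
def label [Mul S] : W S → S
  | .x s => s
  | .mul a b => label a * label b
  | .u _ s _ => s
  | .v _ _ t => t

/-- Well-formed trees. -/
def Valid [Mul S] : W S → Prop
  | .x _ => True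
  | .mul a b => Valid a ∧ Valid b
  | .u w s t => Valid w ∧ label w = s * t
  | .v w s t => Valid w ∧ label w = s * t

/-- An exponent killing the value of a tree. -/
def ord (n : S → ℕ) : W S → ℕ
  | .x s => n s
  | .mul a b => ord n a * ord n b
  | .u w s t => ord n w * (n s * n t)
  | .v w s t => ord n w * (n s * n t)

/-- The weight used for termination. -/
def wt : W S → ℕ
  | .x _ => 0
  | .mul a b => wt a + wt b + 1
  | .u w _ _ => wt w + 1
  | .v w _ _ => wt w + 1

/-- The torsion group of rationals modulo one. -/
abbrev C : Type := AddCircle (1 : ℚ)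

/-- The class of one over k. -/
def cc (k : ℕ) : C := (((1 : ℚ) / (k : ℚ) : ℚ) : C)

theorem nsmul_cc (k m : ℕ) (hk : 0 < k) : m • cc k = 0 ↔ k ∣ m := by
  unfold cc
  rw [← AddCircle.coe_nsmul, AddCircle.coe_eq_zero_iff]
  have hk' : (k : ℚ) ≠ 0 := by positivity
  constructor
  · rintro ⟨z, hz⟩
    have h : (z : ℚ) * k = m := by
      simp only [zsmul_eq_mul, mul_one, nsmul_eq_mul] at hz
      rw [hz]; field_simp
    have h2 : (z : ℤ) * k = m := by exact_mod_cast h
    have : (k : ℤ) ∣ (m : ℤ) := ⟨z, by rw [← h2]; ring⟩
    exact_mod_cast this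
  · rintro ⟨d, rfl⟩
    refine ⟨d, ?_⟩
    simp only [zsmul_eq_mul, mul_one, nsmul_eq_mul]
    push_cast
    field_simp

theorem torsion_C (c : C) : ∃ m : ℕ, 0 < m ∧ m • c = 0 := by
  induction c using QuotientAddGroup.induction_on with
  | H q =>
    refine ⟨q.den, q.den_pos, ?_⟩
    change q.den • ((q : ℚ) : C) = 0
    rw [← AddCircle.coe_nsmul, AddCircle.coe_eq_zero_iff]
    refine ⟨q.num, ?_⟩
    simp only [zsmul_eq_mul, mul_one, nsmul_eq_mul]
    rw [mul_comm]
    exact (Rat.mul_den_eq_num q).symm

/-- The group element attached to a tree. -/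
noncomputable def val (n : S → ℕ) : W S → (W S →₀ C)
  | .x s => Finsupp.single (.x s) (cc (n s))
  | .mul a b => val n a + val n b
  | .u w s t => Finsupp.single (.u w s t) (cc (ord n w * (n s * n t)))
  | .v w s t => val n w - Finsupp.single (.u w s t) (cc (ord n w * (n s * n t)))

theorem ord_pos (n : S → ℕ) (hn : ∀ s, 0 < n s) (a : W S) : 0 < ord n a := by
  induction a with
  | x s => exact hn s
  | mul a b iha ihb => exact Nat.mul_pos iha ihb
  | u w s t ih => exact Nat.mul_pos ih (Nat.mul_pos (hn s) (hn t))
  | v w s t ih => exact Nat.mul_pos ih (Nat.mul_pos (hn s) (hn t))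

theorem ord_smul (n : S → ℕ) (hn : ∀ s, 0 < n s) (a : W S) : ord n a • val n a = 0 := by
  induction a with
  | x s =>
    simp only [ord, val, Finsupp.smul_single]
    rw [(nsmul_cc _ _ (hn s)).2 dvd_rfl, Finsupp.single_zero]
  | mul a b iha ihb =>
    simp only [ord, val, smul_add]
    rw [mul_comm, mul_smul, iha, smul_zero, mul_comm, mul_smul, ihb, smul_zero, add_zero]
  | u w s t ih =>
    have hp : 0 < ord n w * (n s * n t) :=
      Nat.mul_pos (ord_pos n hn w) (Nat.mul_pos (hn s) (hn t))
    simp only [ord, val, Finsupp.smul_single]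
    rw [(nsmul_cc _ _ hp).2 dvd_rfl, Finsupp.single_zero]
  | v w s t ih =>
    have hp : 0 < ord n w * (n s * n t) :=
      Nat.mul_pos (ord_pos n hn w) (Nat.mul_pos (hn s) (hn t))
    simp only [ord, val, smul_sub, Finsupp.smul_single]
    rw [(nsmul_cc _ _ hp).2 dvd_rfl, Finsupp.single_zero, mul_comm, mul_smul, ih, smul_zero,
      sub_zero]

theorem supp_wt (n : S → ℕ) (a w : W S) (s t : S) (h : (val n a) (.u w s t) ≠ 0) :
    wt (W.u w s t) ≤ wt a := by
  classical
  induction a with
  | x r =>
    exfalso; apply h
    simp [val]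
  | mul a b iha ihb =>
    simp only [val, Finsupp.add_apply] at h
    by_cases ha : (val n a) (.u w s t) = 0
    · have hb : (val n b) (.u w s t) ≠ 0 := by
        intro hb; apply h; rw [ha, hb, add_zero]
      have := ihb hb
      simp only [wt] at this ⊢; omega
    · have := iha ha
      simp only [wt] at this ⊢; omega
  | u w' s' t' ih =>
    simp only [val] at h
    by_cases he : W.u w' s' t' = W.u w s t
    · rw [he]
    · exact absurd (by rw [Finsupp.single_apply, if_neg he]) h
  | v w' s' t' ih =>
    simp only [val, Finsupp.sub_apply] at h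
    by_cases he : W.u w' s' t' = W.u w s t
    · injection he with h1 h2 h3
      subst h1 h2 h3
      simp [wt]
    · rw [Finsupp.single_apply, if_neg he, sub_zero] at h
      have := ih h
      simp only [wt] at this ⊢; omega

theorem sum_count {α A : Type} [AddCommGroup A] [DecidableEq α] (M : Multiset α) (g : α → A)
    (p q : α) (c : A)
    (h : ∀ a ∈ M, g a = (if a = p then c else 0) - (if a = q then c else 0)) :
    (M.map g).sum = M.count p • c - M.count q • c := by
  induction M using Multiset.induction_on with
  | empty => simp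
  | cons a M ih =>
    rw [Multiset.map_cons, Multiset.sum_cons, ih (fun b hb => h b (Multiset.mem_cons_of_mem hb)),
      h a (Multiset.mem_cons_self a M), Multiset.count_cons, Multiset.count_cons]
    by_cases h1 : a = p <;> by_cases h2 : a = q
    · subst h1; subst h2; simp
    · subst h1
      simp only [if_true, if_neg h2, if_neg (Ne.symm h2), add_smul, one_smul, add_zero]
      abel
    · subst h2
      simp only [if_true, if_neg h1, if_neg (Ne.symm h1), add_smul, one_smul, add_zero]
      abel
    · simp only [if_neg h1, if_neg h2, if_neg (Ne.symm h1), if_neg (Ne.symm h2), add_zero]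
      abel


/-- The label of a tree, in the monoid with adjoined identity. -/
def lab [Mul S] (a : W S) : WithOne S := WithOne.coe (label a)

theorem elim [CommSemigroup S] (n : S → ℕ) (hn : ∀ s, 2 ≤ n s) :
    ∀ (k : ℕ) (M : Multiset (W S)), (M.map wt).sum = k → (∀ a ∈ M, Valid a) →
      (∀ w s t, (M.map (val n)).sum (.u w s t) = 0) →
      ∃ m : Multiset S, (m.map (fun s => val n (.x s))).sum = (M.map (val n)).sum ∧
        (m.map (WithOne.coe : S → WithOne S)).prod = (M.map lab).prod := by
  classical
  have hn0 : ∀ s, 0 < n s := fun s => lt_of_lt_of_le (by norm_num) (hn s)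
  intro k
  induction k using Nat.strong_induction_on with
  | _ k ih =>
  intro M hk hval hz
  by_cases hmul : ∃ a b, W.mul a b ∈ M
  · obtain ⟨a, b, hab⟩ := hmul
    obtain ⟨M', rfl⟩ := Multiset.exists_cons_of_mem hab
    have hvab : Valid a ∧ Valid b := hval _ (Multiset.mem_cons_self _ _)
    obtain ⟨m, hm1, hm2⟩ := ih ((a ::ₘ b ::ₘ M').map wt).sum (by
        rw [← hk]
        simp only [Multiset.map_cons, Multiset.sum_cons, wt]; omega) (a ::ₘ b ::ₘ M') rfl (by
        intro c hc
        rcases Multiset.mem_cons.1 hc with rfl | hc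
        · exact hvab.1
        rcases Multiset.mem_cons.1 hc with rfl | hc
        · exact hvab.2
        · exact hval c (Multiset.mem_cons_of_mem hc)) (by
        intro w s t
        have := hz w s t
        simpa only [Multiset.map_cons, Multiset.sum_cons, val, add_assoc] using this)
    refine ⟨m, ?_, ?_⟩
    · rw [hm1]; simp only [Multiset.map_cons, Multiset.sum_cons, val, add_assoc]
    · rw [hm2]
      simp only [Multiset.map_cons, Multiset.prod_cons, lab, label, WithOne.coe_mul, mul_assoc]
  by_cases hux : ∃ a ∈ M, 0 < wt a
  swap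
  · -- only x nodes
    push Not at hux
    have hx : ∀ a ∈ M, ∃ s, a = W.x s := by
      intro a ha
      have h0 := hux a ha
      cases a with
      | x s => exact ⟨s, rfl⟩
      | mul a b => exact absurd ⟨a, b, ha⟩ hmul
      | u w s t => simp [wt] at h0
      | v w s t => simp [wt] at h0
    refine ⟨M.map label, ?_, ?_⟩
    · rw [Multiset.map_map]
      apply congrArg
      apply Multiset.map_congr rfl
      intro a ha
      obtain ⟨s, rfl⟩ := hx a ha
      rfl
    · rw [Multiset.map_map]
      rfl
  · -- choose a node of maximal weight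
    obtain ⟨a0, ha0, hpos0⟩ := hux
    obtain ⟨a, ha, hmax⟩ := Multiset.exists_max_image wt (s := M)
      (by rintro rfl; exact absurd ha0 (Multiset.notMem_zero _))
    have hpos : 0 < wt a := lt_of_lt_of_le hpos0 (hmax a0 ha0)
    have hnode : ∃ w s t, a = W.u w s t ∨ a = W.v w s t := by
      cases a with
      | x s => simp [wt] at hpos
      | mul a b => exact absurd ⟨a, b, ha⟩ hmul
      | u w s t => exact ⟨w, s, t, Or.inl rfl⟩
      | v w s t => exact ⟨w, s, t, Or.inr rfl⟩
    obtain ⟨w, s, t, hw⟩ := hnode
    have hwa : wt a = wt w + 1 := by rcases hw with rfl | rfl <;> rfl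
    have hVw : Valid w ∧ label w = s * t := by
      rcases hw with rfl | rfl <;> exact hval _ ha
    set N : ℕ := ord n w * (n s * n t) with hN
    have hNpos : 0 < N := Nat.mul_pos (ord_pos n hn0 w) (Nat.mul_pos (hn0 s) (hn0 t))
    have hsum : (M.map (fun b => (val n b) (.u w s t))).sum
        = M.count (.u w s t) • cc N - M.count (.v w s t) • cc N := by
      apply sum_count
      intro b hb
      have hbw := hmax b hb
      cases b with
      | x r => simp [val]
      | mul b c => exact absurd ⟨b, c, hb⟩ hmul
      | u w' s' t' =>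
        by_cases he : W.u w' s' t' = W.u w s t
        · injection he with h1 h2 h3
          subst h1 h2 h3
          simp [val, hN]
        · rw [if_neg he, if_neg (by intro h; cases h), sub_zero]
          simp only [val]
          rw [Finsupp.single_apply, if_neg he]
      | v w' s' t' =>
        have hw' : (val n w') (.u w s t) = 0 := by
          by_contra hne
          have h1 := supp_wt n w' w s t hne
          simp only [wt] at h1 hbw
          omega
        by_cases he : W.v w' s' t' = W.v w s t
        · injection he with h1 h2 h3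
          subst h1 h2 h3
          rw [if_neg (by intro h; cases h), if_pos rfl]
          simp only [val, Finsupp.sub_apply, hw', Finsupp.single_eq_same, hN]
        · rw [if_neg (by intro h; cases h), if_neg he, sub_zero]
          simp only [val, Finsupp.sub_apply, hw']
          rw [Finsupp.single_apply, if_neg, sub_zero]
          intro h; apply he
          injection h with h1 h2 h3
          subst h1 h2 h3; rfl
    have hzero : M.count (.u w s t) • cc N - M.count (.v w s t) • cc N = 0 := by
      rw [← hsum]
      have := hz w s t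
      rw [← this]
      have : (M.map (fun b => (val n b) (.u w s t))).sum =
          (Finsupp.applyAddHom (W.u w s t)) ((M.map (val n)).sum) := by
        rw [map_multiset_sum, Multiset.map_map]; rfl
      rw [this]; rfl
    by_cases hu : W.u w s t ∈ M
    · by_cases hv : W.v w s t ∈ M
      · -- cancel a pair
        obtain ⟨M1, rfl⟩ := Multiset.exists_cons_of_mem hu
        have hv1 : W.v w s t ∈ M1 := by
          rcases Multiset.mem_cons.1 hv with h | h
          · cases h
          · exact h
        obtain ⟨M2, rfl⟩ := Multiset.exists_cons_of_mem hv1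
        have hvaleq : ((w ::ₘ M2).map (val n)).sum
            = ((W.u w s t ::ₘ W.v w s t ::ₘ M2).map (val n)).sum := by
          simp only [Multiset.map_cons, Multiset.sum_cons, val]; abel
        obtain ⟨m, hm1, hm2⟩ := ih ((w ::ₘ M2).map wt).sum (by
            rw [← hk]
            simp only [Multiset.map_cons, Multiset.sum_cons, wt]; omega) (w ::ₘ M2) rfl (by
            intro c hc
            rcases Multiset.mem_cons.1 hc with rfl | hc
            · exact hVw.1
            · exact hval c (Multiset.mem_cons_of_mem (Multiset.mem_cons_of_mem hc))) (by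
            intro w1 s1 t1
            rw [hvaleq]; exact hz w1 s1 t1)
        refine ⟨m, by rw [hm1, hvaleq], ?_⟩
        rw [hm2]
        simp only [Multiset.map_cons, Multiset.prod_cons, lab, label, hVw.2, WithOne.coe_mul,
          mul_assoc]
      · -- only u
        have hc0 : M.count (W.v w s t) = 0 := Multiset.count_eq_zero.2 hv
        rw [hc0, zero_smul, sub_zero, nsmul_cc _ _ hNpos] at hzero
        have hle : N ≤ M.count (W.u w s t) :=
          Nat.le_of_dvd (Multiset.count_pos.2 hu) hzero
        obtain ⟨M', hM'⟩ := Multiset.le_iff_exists_add.1 (Multiset.le_count_iff_replicate_le.1 hle)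
        subst hM'
        have hvaleq : ((Multiset.replicate N (W.x s) + M').map (val n)).sum
            = ((Multiset.replicate N (W.u w s t) + M').map (val n)).sum := by
          simp only [Multiset.map_add, Multiset.sum_add, Multiset.map_replicate,
            Multiset.sum_replicate]
          have h1 : N • val n (W.x s) = 0 := by
            have := ord_smul n hn0 (W.x s)
            simp only [ord] at this
            rw [hN, show ord n w * (n s * n t) = (ord n w * n t) * n s by ring, mul_smul, this,
              smul_zero]
          have h2 : N • val n (W.u w s t) = 0 := ord_smul n hn0 (W.u w s t)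
          rw [h1, h2]
        obtain ⟨m, hm1, hm2⟩ := ih (((Multiset.replicate N (W.x s) + M').map wt).sum) (by
            rw [← hk]
            simp only [Multiset.map_add, Multiset.sum_add, Multiset.map_replicate,
              Multiset.sum_replicate, wt, smul_eq_mul, mul_zero, zero_add]
            have : 0 < N * (wt w + 1) := Nat.mul_pos hNpos (Nat.succ_pos _)
            omega) _ rfl (by
            intro c hc
            rcases Multiset.mem_add.1 hc with hc | hc
            · rw [Multiset.eq_of_mem_replicate hc]; trivial
            · exact hval c (Multiset.mem_add.2 (Or.inr hc))) (by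
            intro w1 s1 t1
            rw [hvaleq]; exact hz w1 s1 t1)
        refine ⟨m, by rw [hm1, hvaleq], ?_⟩
        rw [hm2]
        simp only [Multiset.map_add, Multiset.prod_add, Multiset.map_replicate,
          Multiset.prod_replicate, lab, label]
    · -- only v
      have hv : W.v w s t ∈ M := by
        rcases hw with rfl | rfl
        · exact absurd ha hu
        · exact ha
      have hc0 : M.count (W.u w s t) = 0 := Multiset.count_eq_zero.2 hu
      rw [hc0, zero_smul, zero_sub, neg_eq_zero, nsmul_cc _ _ hNpos] at hzero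
      have hle : N ≤ M.count (W.v w s t) :=
        Nat.le_of_dvd (Multiset.count_pos.2 hv) hzero
      obtain ⟨M', hM'⟩ := Multiset.le_iff_exists_add.1 (Multiset.le_count_iff_replicate_le.1 hle)
      subst hM'
      have hvaleq : ((Multiset.replicate N (W.x t) + M').map (val n)).sum
          = ((Multiset.replicate N (W.v w s t) + M').map (val n)).sum := by
        simp only [Multiset.map_add, Multiset.sum_add, Multiset.map_replicate,
          Multiset.sum_replicate]
        have h1 : N • val n (W.x t) = 0 := by
          have := ord_smul n hn0 (W.x t)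
          simp only [ord] at this
          rw [hN, show ord n w * (n s * n t) = (ord n w * n s) * n t by ring, mul_smul, this,
            smul_zero]
        have h2 : N • val n (W.v w s t) = 0 := ord_smul n hn0 (W.v w s t)
        rw [h1, h2]
      obtain ⟨m, hm1, hm2⟩ := ih (((Multiset.replicate N (W.x t) + M').map wt).sum) (by
          rw [← hk]
          simp only [Multiset.map_add, Multiset.sum_add, Multiset.map_replicate,
            Multiset.sum_replicate, wt, smul_eq_mul, mul_zero, zero_add]
          have : 0 < N * (wt w + 1) := Nat.mul_pos hNpos (Nat.succ_pos _)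
          omega) _ rfl (by
          intro c hc
          rcases Multiset.mem_add.1 hc with hc | hc
          · rw [Multiset.eq_of_mem_replicate hc]; trivial
          · exact hval c (Multiset.mem_add.2 (Or.inr hc))) (by
          intro w1 s1 t1
          rw [hvaleq]; exact hz w1 s1 t1)
      refine ⟨m, by rw [hm1, hvaleq], ?_⟩
      rw [hm2]
      simp only [Multiset.map_add, Multiset.prod_add, Multiset.map_replicate,
        Multiset.prod_replicate, lab, label]


/-- The submonoid generated by the prescribed powers. -/
def NN [CommSemigroup S] (n : S → ℕ) : Submonoid (WithOne S) :=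
  Submonoid.closure (Set.range fun s : S => (WithOne.coe s) ^ (n s))

theorem pow_mem_NN [CommSemigroup S] (n : S → ℕ) (s : S) (k : ℕ) (h : n s ∣ k) :
    (WithOne.coe s : WithOne S) ^ k ∈ NN n := by
  obtain ⟨d, rfl⟩ := h
  rw [pow_mul]
  have h1 : (WithOne.coe s : WithOne S) ^ (n s) ∈ NN n :=
    Submonoid.subset_closure (Set.mem_range_self s)
  exact Submonoid.pow_mem _ h1 _

theorem final_count [CommSemigroup S] (n : S → ℕ) (hn : ∀ s, 2 ≤ n s) (m : Multiset S) (r : S)
    (hm : (m.map (fun s => val n (.x s))).sum = val n (.x r)) :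
    ∃ Y ∈ NN n, (m.map (WithOne.coe : S → WithOne S)).prod = WithOne.coe r * Y := by
  classical
  have hn0 : ∀ s, 0 < n s := fun s => lt_of_lt_of_le (by norm_num) (hn s)
  have key : ∀ (m : Multiset S) (s : S),
      (m.map (fun s => val n (.x s))).sum (.x s) = m.count s • cc (n s) := by
    intro m s
    induction m using Multiset.induction_on with
    | empty => simp
    | cons a m ih =>
      rw [Multiset.map_cons, Multiset.sum_cons, Finsupp.add_apply, ih, Multiset.count_cons]
      by_cases h : a = s
      · subst h
        simp only [val, Finsupp.single_eq_same, if_true, add_smul, one_smul]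
        abel
      · have h' : W.x a ≠ W.x s := fun he => h (by injection he)
        simp only [val, Finsupp.single_apply, if_neg h', if_neg (Ne.symm h), add_zero, zero_add]
  have hr : r ∈ m := by
    by_contra hr
    have h1 := key m r
    rw [hm, Multiset.count_eq_zero.2 hr, zero_smul] at h1
    simp only [val, Finsupp.single_eq_same] at h1
    have h2 := (nsmul_cc (n r) 1 (hn0 r)).1 (by rw [one_smul]; exact h1)
    have := Nat.le_of_dvd one_pos h2
    have := hn r
    omega
  obtain ⟨m', rfl⟩ := Multiset.exists_cons_of_mem hr
  have hdvd : ∀ s, n s ∣ m'.count s := by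
    intro s
    have h1 : (m'.map (fun s => val n (.x s))).sum = 0 := by
      rw [Multiset.map_cons, Multiset.sum_cons] at hm
      exact add_eq_left.1 hm
    have h2 := key m' s
    rw [h1] at h2
    exact (nsmul_cc _ _ (hn0 s)).1 h2.symm
  refine ⟨(m'.map (WithOne.coe : S → WithOne S)).prod, ?_, by
    rw [Multiset.map_cons, Multiset.prod_cons]⟩
  rw [Finset.prod_multiset_map_count]
  exact Submonoid.prod_mem _ fun s _ => pow_mem_NN n s _ (hdvd s)

/-- The sets attached to the elements of the semigroup, in additive form. -/
def ff [Mul S] (n : S → ℕ) (r : S) : Set (W S →₀ C) :=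
  {g | ∃ a : W S, Valid a ∧ label a = r ∧ val n a = g}

theorem ff_add [CommSemigroup S] (n : S → ℕ) (r r' : S) (g : W S →₀ C) :
    g ∈ ff n (r * r') ↔ ∃ g1 ∈ ff n r, ∃ g2 ∈ ff n r', g1 + g2 = g := by
  constructor
  · rintro ⟨w, hw1, hw2, rfl⟩
    refine ⟨_, ⟨W.u w r r', ⟨hw1, hw2⟩, rfl, rfl⟩, _, ⟨W.v w r r', ⟨hw1, hw2⟩, rfl, rfl⟩, ?_⟩
    simp only [val]; abel
  · rintro ⟨_, ⟨a, ha1, ha2, rfl⟩, _, ⟨b, hb1, hb2, rfl⟩, rfl⟩
    exact ⟨W.mul a b, ⟨ha1, hb1⟩, by simp only [label, ha2, hb2], rfl⟩

theorem ff_label [CommSemigroup S] (n : S → ℕ) (hn : ∀ s, 2 ≤ n s) (r t : S)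
    (h : ff n r ⊆ ff n t) :
    ∃ Y ∈ NN n, (WithOne.coe t : WithOne S) = WithOne.coe r * Y := by
  have h1 : val n (.x r) ∈ ff n r := ⟨.x r, trivial, rfl, rfl⟩
  obtain ⟨a, ha1, ha2, ha3⟩ := h h1
  obtain ⟨m, hm1, hm2⟩ := elim n hn _ ({a} : Multiset (W S)) rfl
    (by intro b hb; rw [Multiset.mem_singleton] at hb; rw [hb]; exact ha1)
    (by
      intro w s t
      rw [Multiset.map_singleton, Multiset.sum_singleton, ha3]
      simp [val])
  rw [Multiset.map_singleton, Multiset.sum_singleton, ha3] at hm1
  obtain ⟨Y, hY, hY2⟩ := final_count n hn m r hm1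
  refine ⟨Y, hY, ?_⟩
  rw [← hY2, hm2, Multiset.map_singleton, Multiset.prod_singleton, lab, ha2]

/-- The general embedding theorem. -/
theorem embed [CommSemigroup S] (n : S → ℕ) (hn : ∀ s, 2 ≤ n s)
    (hanti : ∀ (r s : S) (Z : WithOne S), Z ∈ NN n →
      (WithOne.coe r : WithOne S) * (WithOne.coe s) ^ (n s) * Z = WithOne.coe r →
      (WithOne.coe r : WithOne S) * (WithOne.coe s) ^ (n s) = WithOne.coe r) :
    ∃ (G : Type) (_ : CommGroup G), Monoid.IsTorsion G ∧
      ∃ f : S →ₙ* Set G, Function.Injective f ∧ ∀ s : S, (f s).Nonempty := by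
  classical
  have hanti2 : ∀ Y ∈ NN n, ∀ (r : S) (Z : WithOne S), Z ∈ NN n →
      (WithOne.coe r : WithOne S) * Y * Z = WithOne.coe r →
      (WithOne.coe r : WithOne S) * Y = WithOne.coe r := by
    intro Y hY
    induction hY using Submonoid.closure_induction with
    | mem y hy =>
      obtain ⟨s, rfl⟩ := hy
      intro r Z hZ h
      exact hanti r s Z hZ h
    | one => intro r Z _ _; rw [mul_one]
    | mul y z hy hz ihy ihz =>
      intro r Z hZ h
      have h1 : (WithOne.coe r : WithOne S) * y = WithOne.coe r := by
        apply ihy r (z * Z) (Submonoid.mul_mem _ hz hZ)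
        simpa only [mul_assoc] using h
      have h2 : (WithOne.coe r : WithOne S) * z = WithOne.coe r := by
        apply ihz r Z hZ
        rw [← mul_assoc, h1] at h
        exact h
      rw [← mul_assoc, h1, h2]
  refine ⟨Multiplicative (W S →₀ C), inferInstance, ?_, ?_⟩
  · intro g
    have key : ∀ g : W S →₀ C, ∃ m : ℕ, 0 < m ∧ m • g = 0 := by
      intro g
      induction g using Finsupp.induction_linear with
      | zero => exact ⟨1, one_pos, by simp⟩
      | add f g hf hg =>
        obtain ⟨m1, h1, h2⟩ := hf
        obtain ⟨m2, h3, h4⟩ := hg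
        refine ⟨m1 * m2, Nat.mul_pos h1 h3, ?_⟩
        rw [smul_add, mul_smul m1 m2 g, h4, smul_zero, mul_comm, mul_smul, h2, smul_zero,
          add_zero]
      | single a c =>
        obtain ⟨m, h1, h2⟩ := torsion_C c
        exact ⟨m, h1, by rw [Finsupp.smul_single, h2, Finsupp.single_zero]⟩
    obtain ⟨m, h1, h2⟩ := key (Multiplicative.toAdd g)
    exact isOfFinOrder_iff_pow_eq_one.2 ⟨m, h1, by
      apply Multiplicative.toAdd.injective
      rw [toAdd_pow, h2]; rfl⟩
  · refine ⟨⟨fun r => Multiplicative.toAdd ⁻¹' (ff n r), ?_⟩, ?_, ?_⟩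
    · intro r r'
      ext g
      rw [Set.mem_preimage, ff_add, Set.mem_mul]
      constructor
      · rintro ⟨g1, h1, g2, h2, h3⟩
        exact ⟨Multiplicative.ofAdd g1, h1, Multiplicative.ofAdd g2, h2, h3⟩
      · rintro ⟨g1, h1, g2, h2, h3⟩
        exact ⟨Multiplicative.toAdd g1, h1, Multiplicative.toAdd g2, h2, h3⟩
    · intro r t hrt
      have hrt' : ff n r = ff n t := hrt
      obtain ⟨Y, hY, hY2⟩ := ff_label n hn r t (by rw [hrt'])
      obtain ⟨Z, hZ, hZ2⟩ := ff_label n hn t r (by rw [hrt'])
      have h1 : (WithOne.coe r : WithOne S) * Y = WithOne.coe r := by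
        apply hanti2 Y hY r Z hZ
        rw [← hY2, ← hZ2]
      rw [h1] at hY2
      exact (WithOne.coe_injective hY2).symm
    · intro r
      exact ⟨Multiplicative.ofAdd (val n (.x r)), ⟨.x r, trivial, rfl, rfl⟩⟩

end Pool.Agent.Helper313.PowEmb
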